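import Pool.Agent.MP_eb915b_lc.Geo

/-!
The algorithm (as a plain function) and its correctness.
-/

namespace Pool.Agent.MP_eb915b_lc

open Function

/-- Boolean pairwise test. -/
def pwB {β : Type} (r : β → β → Bool) (l : List β) : Bool :=
  (l.foldr (fun x (s : List β × Bool) => (x :: s.1, s.2 && s.1.all (r x))) ([], true)).2

theorem pwB_aux {β : Type} (r : β → β → Bool) (l : List β) :
    (l.foldr (fun x (s : List β × Bool) => (x :: s.1, s.2 && s.1.all (r x))) ([], true)).1 = l ∧
    ((l.foldr (fun x (s : List β × Bool) => (x :: s.1, s.2 && s.1.all (r x))) ([], true)).2 = true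
      ↔ l.Pairwise (fun a b => r a b = true)) := by
  induction l with
  | nil => simp
  | cons x l ih =>
    obtain ⟨h1, h2⟩ := ih
    simp only [List.foldr_cons, h1, Bool.and_eq_true, h2, List.pairwise_cons, List.all_eq_true]
    exact ⟨trivial, and_comm⟩

theorem pwB_iff {β : Type} (r : β → β → Bool) (l : List β) :
    pwB r l = true ↔ l.Pairwise (fun a b => r a b = true) := (pwB_aux r l).2

def sepB (B C : List Pt) : Bool :=
  B.all (fun p => C.all (fun q => p.2.blt q.2)) || B.all (fun p => C.all (fun q => q.2.blt p.2))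

theorem sepB_iff (B C : List Pt) : sepB B C = true ↔ Sep B C := by
  simp [sepB, Sep, Nat.blt_eq]

/-- The verifier of a candidate solution. -/
def chk (pts : List Pt) (k : ℕ) (P : List (List Pt)) : Bool :=
  P.flatten.all (fun p => pts.contains p) && pwB (fun p q => p.1.blt q.1) P.flatten &&
    P.all (fun B => (2 : ℕ).ble B.length && pwB (fun p q => p.2.blt q.2) B) && pwB sepB P &&
    k.ble P.flatten.length

theorem chk_iff (pts : List Pt) (k : ℕ) (P : List (List Pt)) :
    chk pts k P = true ↔ GeoW pts k P := by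
  simp only [chk, GeoW, Bool.and_eq_true, List.all_eq_true, pwB_iff, sepB_iff, Nat.blt_eq,
    Nat.ble_eq, List.contains_iff_mem, and_assoc]

/-- Strict domination of points. -/
def domB (q p : Pt) : Bool := q.1.blt p.1 && q.2.blt p.2

theorem domB_iff (q p : Pt) : domB q p = true ↔ q.1 < p.1 ∧ q.2 < p.2 := by
  simp [domB, Nat.blt_eq]

def levStep (pts L : List Pt) : List Pt := pts.filter fun p => L.any fun q => domB q p

/-- Points that end an increasing chain with at least `i + 1` points. -/
def lev (pts : List Pt) (i : ℕ) : List Pt := (levStep pts)^[i] pts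

theorem lev_zero (pts : List Pt) : lev pts 0 = pts := rfl

theorem lev_succ (pts : List Pt) (i : ℕ) : lev pts (i + 1) = levStep pts (lev pts i) :=
  iterate_succ_apply' _ _ _

theorem mem_lev_succ {pts : List Pt} {i : ℕ} {p : Pt} :
    p ∈ lev pts (i + 1) ↔ p ∈ pts ∧ ∃ q ∈ lev pts i, q.1 < p.1 ∧ q.2 < p.2 := by
  simp only [lev_succ, levStep, List.mem_filter, List.any_eq_true, domB_iff]

theorem lev_sublist (pts : List Pt) : ∀ i, (lev pts i).Sublist pts
  | 0 => List.Sublist.refl _
  | i + 1 => by rw [lev_succ]; exact List.filter_sublist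

/-- Points of rank exactly `c`: a decreasing chain. -/
def chain (pts : List Pt) (c : ℕ) : List Pt :=
  (lev pts c).filter fun p => !(lev pts (c + 1)).contains p

theorem mem_chain {pts : List Pt} {c : ℕ} {p : Pt} :
    p ∈ chain pts c ↔ p ∈ lev pts c ∧ p ∉ lev pts (c + 1) := by
  simp [chain]

theorem chain_sublist (pts : List Pt) (c : ℕ) : (chain pts c).Sublist pts :=
  List.filter_sublist.trans (lev_sublist pts c)

theorem exists_chain_of_lev {pts : List Pt} : ∀ (i : ℕ) (p : Pt), p ∈ lev pts i →
    ∃ B : List Pt, B.length = i ∧ (∀ q ∈ p :: B, q ∈ pts) ∧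
      (p :: B).Pairwise (fun a b => b.1 < a.1 ∧ b.2 < a.2)
  | 0, p, h => ⟨[], rfl, by simpa [lev_zero] using h, by simp⟩
  | i + 1, p, h => by
    obtain ⟨hp, q, hq, hqp⟩ := mem_lev_succ.1 h
    obtain ⟨B, hl, hm, hpw⟩ := exists_chain_of_lev i q hq
    refine ⟨q :: B, by simp [hl], ?_, ?_⟩
    · intro r hr
      rcases List.mem_cons.1 hr with rfl | hr
      · exact hp
      · exact hm r hr
    · refine List.pairwise_cons.2 ⟨fun r hr => ?_, hpw⟩
      rcases List.mem_cons.1 hr with rfl | hr
      · exact hqp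
      · have := (List.pairwise_cons.1 hpw).1 r hr
        omega

theorem geo_of_lev {pts : List Pt} {k : ℕ} (h : lev pts (k + 1) ≠ []) : Geo pts k := by
  obtain ⟨p, hp⟩ := List.exists_mem_of_ne_nil _ h
  obtain ⟨B, hl, hm, hpw⟩ := exists_chain_of_lev _ p hp
  have hpw' : (p :: B).reverse.Pairwise (fun a b => a.1 < b.1 ∧ a.2 < b.2) :=
    List.pairwise_reverse.2 hpw
  refine ⟨[(p :: B).reverse], ?_, ?_, ?_, by simp, by simp [hl]; omega⟩
  · intro q hq
    simp only [List.flatten_cons, List.flatten_nil, List.append_nil, List.mem_reverse] at hq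
    exact hm q hq
  · simpa only [List.flatten_cons, List.flatten_nil, List.append_nil] using hpw'.imp And.left
  · intro C hC
    rw [List.mem_singleton] at hC
    subst hC
    exact ⟨by simp [hl], hpw'.imp And.right⟩

theorem mem_lev_of_chain {pts : List Pt} : ∀ (B : List Pt) (p : Pt), (∀ q ∈ p :: B, q ∈ pts) →
    (p :: B).Pairwise (fun a b => b.1 < a.1 ∧ b.2 < a.2) → p ∈ lev pts B.length
  | [], p, hm, _ => hm p (by simp)
  | q :: B, p, hm, hpw => by
    rw [List.pairwise_cons] at hpw
    exact mem_lev_succ.2 ⟨hm p (by simp), q,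
      mem_lev_of_chain B q (fun r hr => hm r (List.mem_cons_of_mem _ hr)) hpw.2,
      hpw.1 q (by simp)⟩

theorem lev_eq_nil_add {pts : List Pt} {i : ℕ} (h : lev pts i = []) : ∀ d, lev pts (i + d) = []
  | 0 => h
  | d + 1 => by rw [← add_assoc, lev_succ, lev_eq_nil_add h d]; simp [levStep]

theorem length_le_of_lev {pts : List Pt} {k : ℕ} (h : lev pts (k + 1) = []) {B : List Pt}
    (hm : ∀ q ∈ B, q ∈ pts) (hpw : B.Pairwise (fun a b => a.1 < b.1 ∧ a.2 < b.2)) :
    B.length ≤ k + 1 := by
  by_contra hlt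
  have hpw' : B.reverse.Pairwise (fun a b => b.1 < a.1 ∧ b.2 < a.2) := List.pairwise_reverse.2 hpw
  rcases e : B.reverse with _ | ⟨p, C⟩
  · have := congrArg List.length e
    simp only [List.length_reverse, List.length_nil] at this
    omega
  · have hl := congrArg List.length e
    simp only [List.length_reverse, List.length_cons] at hl
    rw [e] at hpw'
    have h1 := mem_lev_of_chain (pts := pts) C p
      (fun q hq => hm q (List.mem_reverse.1 (e ▸ hq))) hpw'
    obtain ⟨d, hd⟩ : ∃ d, C.length = k + 1 + d := ⟨C.length - (k + 1), by omega⟩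
    rw [hd, lev_eq_nil_add h d] at h1
    simp at h1

theorem exists_rank {pts : List Pt} {p : Pt} (hp : p ∈ pts) :
    ∀ k, p ∉ lev pts (k + 1) → ∃ c ≤ k, p ∈ chain pts c
  | 0, h => ⟨0, le_rfl, mem_chain.2 ⟨hp, h⟩⟩
  | k + 1, h => by
    by_cases h' : p ∈ lev pts (k + 1)
    · exact ⟨k + 1, le_rfl, mem_chain.2 ⟨h', h⟩⟩
    · obtain ⟨c, hc, h2⟩ := exists_rank hp k h'
      exact ⟨c, by omega, h2⟩

theorem eq_of_fst_eq {pts : List Pt} (hs : pts.Pairwise (fun p q => p.1 < q.1)) {p q : Pt}
    (hp : p ∈ pts) (hq : q ∈ pts) (h : p.1 = q.1) : p = q := by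
  induction pts with
  | nil => simp at hp
  | cons r l ih =>
    rw [List.pairwise_cons] at hs
    rcases List.mem_cons.1 hp with rfl | hp' <;> rcases List.mem_cons.1 hq with rfl | hq'
    · rfl
    · have := hs.1 q hq'; omega
    · have := hs.1 p hp'; omega
    · exact ih hs.2 hp' hq'

theorem chain_anti {pts : List Pt} (hs : pts.Pairwise (fun p q => p.1 < q.1)) {c : ℕ} {p q : Pt}
    (hp : p ∈ chain pts c) (hq : q ∈ chain pts c) (h : p.1 ≤ q.1) : q.2 ≤ p.2 := by
  have hp' := (chain_sublist pts c).subset hp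
  have hq' := (chain_sublist pts c).subset hq
  rcases h.eq_or_lt with h | h
  · rw [eq_of_fst_eq hs hp' hq' h]
  · by_contra hlt
    exact (mem_chain.1 hq).2 (mem_lev_succ.2 ⟨hq', p, (mem_chain.1 hp).1, h, by omega⟩)

theorem head_le {l : List Pt} (hs : l.Pairwise (fun p q => p.1 < q.1)) {p : Pt} (hp : p ∈ l)
    (d : Pt) : l.headD d ∈ l ∧ (l.headD d).1 ≤ p.1 := by
  cases l with
  | nil => simp at hp
  | cons r l =>
    rw [List.pairwise_cons] at hs
    refine ⟨by simp, ?_⟩
    rcases List.mem_cons.1 hp with rfl | hp'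
    · simp
    · exact (hs.1 p hp').le

theorem exists_take {β : Type} {L : ℕ} : ∀ (P : List (List β)) (k : ℕ), k ≤ P.flatten.length →
    (∀ B ∈ P, B.length ≤ L) →
    ∃ i, k ≤ (P.take i).flatten.length ∧ (P.take i).flatten.length ≤ k + L
  | [], k, h, _ => ⟨0, by simpa using h, by simp⟩
  | B :: P, k, h, hL => by
    have hB := hL B (by simp)
    by_cases hk : k ≤ B.length
    · exact ⟨1, by simpa using hk, by simp; omega⟩
    · simp only [List.flatten_cons, List.length_append] at h
      obtain ⟨i, h1, h2⟩ := exists_take P (k - B.length) (by omega)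
        (fun C hC => hL C (by simp [hC]))
      refine ⟨i + 1, ?_, ?_⟩ <;>
        simp only [List.take_succ_cons, List.flatten_cons, List.length_append] <;> omega

theorem length_le_flatten {β : Type} : ∀ (P : List (List β)), (∀ B ∈ P, 2 ≤ B.length) →
    P.length ≤ P.flatten.length
  | [], _ => by simp
  | B :: P, h => by
    have h1 := h B (by simp)
    have h2 := length_le_flatten P (fun C hC => h C (by simp [hC]))
    simp only [List.flatten_cons, List.length_append, List.length_cons]
    omega

theorem exists_small {pts : List Pt} {k : ℕ} (h : lev pts (k + 1) = []) (hg : Geo pts k) :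
    ∃ P, GeoW pts k P ∧ P.flatten.length ≤ 2 * k + 1 := by
  obtain ⟨P, hm, hx, hB, hsep, hk⟩ := hg
  obtain ⟨i, h1, h2⟩ := exists_take (L := k + 1) P k hk (fun B hB' =>
    length_le_of_lev h (fun q hq => hm q (List.mem_flatten.2 ⟨B, hB', hq⟩))
      ((hx.sublist (List.sublist_flatten_of_mem hB')).and (hB B hB').2))
  have hsub : (P.take i).Sublist P := List.take_sublist i P
  have hsub' : (P.take i).flatten.Sublist P.flatten := hsub.flatten
  exact ⟨P.take i, ⟨fun p hp => hm p (hsub'.subset hp), hx.sublist hsub',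
    fun B hB' => hB B (hsub.subset hB'), hsep.sublist hsub, h1⟩, by omega⟩

/-- A guessed record: rank in the first order, rank in the second order, chain number. -/
abbrev Rc := ℕ × ℕ × ℕ

abbrev Vr := Rc × Pt

/-- Candidates for the new position of the variable `v`. -/
def cands (pts : List Pt) (al : List Vr) (v : Vr) : List Pt :=
  (chain pts v.1.2.2).filter fun p => v.2.1.ble p.1 &&
    al.all fun u => (!(u.1.1.blt v.1.1) || u.2.1.blt p.1) && (!(v.1.2.1.blt u.1.2.1) || p.2.blt u.2.2)

theorem mem_cands {pts : List Pt} {al : List Vr} {v : Vr} {p : Pt} :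
    p ∈ cands pts al v ↔ p ∈ chain pts v.1.2.2 ∧ v.2.1 ≤ p.1 ∧
      ∀ u ∈ al, (u.1.1 < v.1.1 → u.2.1 < p.1) ∧ (v.1.2.1 < u.1.2.1 → p.2 < u.2.2) := by
  simp only [cands, List.mem_filter, Bool.and_eq_true, Nat.ble_eq, List.all_eq_true,
    Bool.or_eq_true, Bool.not_eq_true', Nat.blt_eq, ← Bool.not_eq_true, imp_iff_not_or]

def upd (pts : List Pt) (al : List Vr) (v : Vr) : Vr := (v.1, (cands pts al v).headD v.2)

def step (pts : List Pt) (st : List (List Vr)) : List (List Vr) :=
  st.map fun B => B.map fun v => upd pts st.flatten v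

def start (pts : List Pt) (Q : List (List Rc)) : List (List Vr) :=
  Q.map fun B => B.map fun r => (r, (0, pts.length))

def solve (pts : List Pt) (Q : List (List Rc)) : List (List Pt) :=
  ((step pts)^[Q.flatten.length * pts.length + 1 + 1] (start pts Q)).map fun B => B.map fun v => v.2

section Complete

variable {pts : List Pt} (hs : pts.Pairwise (fun p q => p.1 < q.1))
  (hb : ∀ p ∈ pts, p.1 < pts.length ∧ p.2 < pts.length)
  {P : List (List Pt)} {ann : Pt → Rc}
  (hc : ∀ p ∈ P.flatten, p ∈ chain pts (ann p).2.2)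
  (hx : ∀ p ∈ P.flatten, ∀ q ∈ P.flatten, p.1 < q.1 ↔ (ann p).1 < (ann q).1)
  (hy : ∀ p ∈ P.flatten, ∀ q ∈ P.flatten, p.2 < q.2 ↔ (ann p).2.1 < (ann q).2.1)

/-- The state attached to an assignment. -/
def stOf (P : List (List Pt)) (ann : Pt → Rc) (s : Pt → Pt) : List (List Vr) :=
  P.map fun B => B.map fun p => (ann p, s p)

/-- The action of one step on assignments. -/
def nxt (pts : List Pt) (P : List (List Pt)) (ann : Pt → Rc) (s : Pt → Pt) (p : Pt) : Pt :=
  (cands pts (P.flatten.map fun q => (ann q, s q)) (ann p, s p)).headD (s p)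

theorem flatten_stOf (s : Pt → Pt) :
    (stOf P ann s).flatten = P.flatten.map fun q => (ann q, s q) := by
  rw [stOf, List.map_flatten]

theorem step_stOf (s : Pt → Pt) : step pts (stOf P ann s) = stOf P ann (nxt pts P ann s) := by
  rw [step, flatten_stOf]
  simp only [stOf, List.map_map, Function.comp_def]
  rfl

theorem iter_stOf (s : Pt → Pt) (t : ℕ) :
    (step pts)^[t] (stOf P ann s) = stOf P ann ((nxt pts P ann)^[t] s) := by
  induction t with
  | zero => rfl
  | succ t ih => rw [iterate_succ_apply', iterate_succ_apply', ih, step_stOf]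

theorem nxt_congr {s s' : Pt → Pt} (h : ∀ p ∈ P.flatten, s p = s' p) :
    ∀ p ∈ P.flatten, nxt pts P ann s p = nxt pts P ann s' p := by
  intro p hp
  have : (P.flatten.map fun q => (ann q, s q)) = P.flatten.map fun q => (ann q, s' q) :=
    List.map_congr_left fun q hq => by rw [h q hq]
  rw [nxt, nxt, this, h p hp]

include hs hc hx hy in
theorem nxt_spec {s : Pt → Pt} (h : ∀ p ∈ P.flatten, (s p).1 ≤ p.1 ∧ p.2 ≤ (s p).2) :
    ∀ p ∈ P.flatten, nxt pts P ann s p ∈
        cands pts (P.flatten.map fun q => (ann q, s q)) (ann p, s p) ∧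
      (nxt pts P ann s p).1 ≤ p.1 ∧ p.2 ≤ (nxt pts P ann s p).2 := by
  intro p hp
  have h1 : p ∈ cands pts (P.flatten.map fun q => (ann q, s q)) (ann p, s p) := by
    refine mem_cands.2 ⟨hc p hp, (h p hp).1, fun u hu => ?_⟩
    obtain ⟨q, hq, rfl⟩ := List.mem_map.1 hu
    have h2 := h q hq
    have h3 := hx q hq p hp
    have h4 := hy p hp q hq
    exact ⟨fun h5 => lt_of_le_of_lt h2.1 (h3.2 h5), fun h5 => lt_of_lt_of_le (h4.2 h5) h2.2⟩
  have h2 : (cands pts (P.flatten.map fun q => (ann q, s q)) (ann p, s p)).Pairwise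
      (fun p q => p.1 < q.1) := hs.sublist (List.filter_sublist.trans (chain_sublist _ _))
  obtain ⟨h3, h4⟩ := head_le h2 h1 (s p)
  exact ⟨h3, h4, chain_anti hs (mem_cands.1 h3).1 (hc p hp) h4⟩

include hs hb hc hx hy in
theorem inv_iter (t : ℕ) : ∀ p ∈ P.flatten,
    ((nxt pts P ann)^[t] (fun _ => (0, pts.length)) p).1 ≤ p.1 ∧
      p.2 ≤ ((nxt pts P ann)^[t] (fun _ => (0, pts.length)) p).2 := by
  induction t with
  | zero =>
    intro p hp
    exact ⟨Nat.zero_le _, (hb p ((chain_sublist _ _).subset (hc p hp))).2.le⟩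
  | succ t ih =>
    intro p hp
    rw [iterate_succ_apply']
    exact (nxt_spec hs hc hx hy ih p hp).2

theorem sum_lt_of {S : List Pt} {f g : Pt → ℕ} (h : ∀ p ∈ S, f p ≤ g p) :
    (S.map f).sum ≤ (S.map g).sum ∧ ((∃ p ∈ S, f p < g p) → (S.map f).sum < (S.map g).sum) := by
  induction S with
  | nil => simp
  | cons r S ih =>
    obtain ⟨h1, h2⟩ := ih fun p hp => h p (by simp [hp])
    have h3 := h r (by simp)
    simp only [List.map_cons, List.sum_cons]
    refine ⟨by omega, ?_⟩
    rintro ⟨p, hp, h4⟩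
    rcases List.mem_cons.1 hp with rfl | hp
    · omega
    · have := h2 ⟨p, hp, h4⟩; omega

include hs hb hc hx hy in
theorem stabilises (t : ℕ) :
    t ≤ (P.flatten.map fun p => ((nxt pts P ann)^[t + 1] (fun _ => (0, pts.length)) p).1).sum ∨
    ∀ p ∈ P.flatten, (nxt pts P ann)^[t + 2] (fun _ => (0, pts.length)) p =
      (nxt pts P ann)^[t + 1] (fun _ => (0, pts.length)) p := by
  induction t with
  | zero => exact Or.inl (Nat.zero_le _)
  | succ t ih =>
    by_cases hfix : ∀ p ∈ P.flatten, (nxt pts P ann)^[t + 2] (fun _ => (0, pts.length)) p =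
      (nxt pts P ann)^[t + 1] (fun _ => (0, pts.length)) p
    · right
      intro p hp
      rw [iterate_succ_apply' _ (t + 2), iterate_succ_apply' _ (t + 1)]
      refine nxt_congr (fun q hq => ?_) p hp
      rw [← iterate_succ_apply' (nxt pts P ann) (t + 1)]
      exact hfix q hq
    · left
      have h1 := ih.resolve_right hfix
      push Not at hfix
      obtain ⟨p, hp, hne⟩ := hfix
      have hsp := fun t => nxt_spec hs hc hx hy (inv_iter hs hb hc hx hy t)
      have hle : ∀ q ∈ P.flatten, ((nxt pts P ann)^[t + 1] (fun _ => (0, pts.length)) q).1 ≤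
          ((nxt pts P ann)^[t + 2] (fun _ => (0, pts.length)) q).1 := by
        intro q hq
        rw [iterate_succ_apply' _ (t + 1)]
        exact (mem_cands.1 (hsp (t + 1) q hq).1).2.1
      have h2 := (sum_lt_of hle).2 ⟨p, hp, lt_of_le_of_ne (hle p hp) fun e => hne ?_⟩
      · exact lt_of_le_of_lt h1 h2
      · refine (eq_of_fst_eq hs ?_ ?_ e).symm
        · rw [iterate_succ_apply']
          exact (chain_sublist _ _).subset (mem_cands.1 (hsp t p hp).1).1
        · rw [iterate_succ_apply']
          exact (chain_sublist _ _).subset (mem_cands.1 (hsp (t + 1) p hp).1).1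

include hs hb hc hx hy in
theorem solve_spec : ∃ s : Pt → Pt,
    solve pts (P.map fun B => B.map ann) = P.map (fun B => B.map s) ∧
    (∀ p ∈ P.flatten, s p ∈ pts) ∧
    (∀ p ∈ P.flatten, ∀ q ∈ P.flatten, p.1 < q.1 → (s p).1 < (s q).1) ∧
    (∀ p ∈ P.flatten, ∀ q ∈ P.flatten, p.2 < q.2 → (s p).2 < (s q).2) := by
  set t := P.flatten.length * pts.length + 1 with ht
  have hfix := (stabilises hs hb hc hx hy t).resolve_left (by
    have h1 := (sum_lt_of (S := P.flatten) (g := fun _ => pts.length)
      (f := fun p => ((nxt pts P ann)^[t + 1] (fun _ => (0, pts.length)) p).1) (fun p hp =>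
        (inv_iter hs hb hc hx hy (t + 1) p hp).1.trans
          (hb p ((chain_sublist _ _).subset (hc p hp))).1.le)).1
    simp only [List.map_const', List.sum_replicate, smul_eq_mul] at h1
    omega)
  have hsp := nxt_spec hs hc hx hy (inv_iter hs hb hc hx hy (t + 1))
  simp only [iterate_succ_apply' _ (t + 1)] at hfix
  set s := (nxt pts P ann)^[t + 1] (fun _ => (0, pts.length)) with hsdef
  have hcand : ∀ p ∈ P.flatten,
      s p ∈ cands pts (P.flatten.map fun q => (ann q, s q)) (ann p, s p) := fun p hp => by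
    have := (hsp p hp).1
    rwa [hfix p hp] at this
  refine ⟨s, ?_, fun p hp => (chain_sublist _ _).subset (mem_cands.1 (hcand p hp)).1,
    fun p hp q hq h => ?_, fun p hp q hq h => ?_⟩
  · have e1 : start pts (P.map fun B => B.map ann) = stOf P ann (fun _ => (0, pts.length)) := by
      simp only [start, stOf, List.map_map, Function.comp_def]
    have e2 : (P.map fun B => B.map ann).flatten.length = P.flatten.length := by
      rw [← List.map_flatten, List.length_map]
    rw [solve, e1, e2, iter_stOf]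
    simp only [stOf, List.map_map, Function.comp_def]
    rfl
  · exact ((mem_cands.1 (hcand q hq)).2.2 (ann p, s p) (List.mem_map_of_mem hp)).1
      ((hx p hp q hq).1 h)
  · exact ((mem_cands.1 (hcand p hp)).2.2 (ann q, s q) (List.mem_map_of_mem hq)).2
      ((hy p hp q hq).1 h)

end Complete

theorem geoW_map {pts : List Pt} {k : ℕ} {P : List (List Pt)} (h : GeoW pts k P) {s : Pt → Pt}
    (h0 : ∀ p ∈ P.flatten, s p ∈ pts)
    (h1 : ∀ p ∈ P.flatten, ∀ q ∈ P.flatten, p.1 < q.1 → (s p).1 < (s q).1)
    (h2 : ∀ p ∈ P.flatten, ∀ q ∈ P.flatten, p.2 < q.2 → (s p).2 < (s q).2) :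
    GeoW pts k (P.map fun B => B.map s) := by
  obtain ⟨_, hx, hB, hsep, hk⟩ := h
  have hfl : (P.map fun B => B.map s).flatten = P.flatten.map s := by rw [List.map_flatten]
  have hmem : ∀ B ∈ P, ∀ p ∈ B, p ∈ P.flatten := fun B hB p hp => List.mem_flatten.2 ⟨B, hB, hp⟩
  refine ⟨?_, ?_, ?_, ?_, ?_⟩
  · rw [hfl]
    intro p hp
    obtain ⟨q, hq, rfl⟩ := List.mem_map.1 hp
    exact h0 q hq
  · rw [hfl, List.pairwise_map]
    exact List.Pairwise.imp_of_mem (fun {p q} hp hq h => h1 p hp q hq h) hx
  · intro C hC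
    obtain ⟨B, hB', rfl⟩ := List.mem_map.1 hC
    refine ⟨by simpa using (hB B hB').1, ?_⟩
    rw [List.pairwise_map]
    exact List.Pairwise.imp_of_mem
      (fun {p q} hp hq h => h2 p (hmem B hB' p hp) q (hmem B hB' q hq) h) (hB B hB').2
  · rw [List.pairwise_map]
    refine List.Pairwise.imp_of_mem (fun {B C} hB' hC' h => ?_) hsep
    rcases h with h | h
    · left
      intro p' hp' q' hq'
      obtain ⟨p, hp, rfl⟩ := List.mem_map.1 hp'
      obtain ⟨q, hq, rfl⟩ := List.mem_map.1 hq'
      exact h2 p (hmem B hB' p hp) q (hmem C hC' q hq) (h p hp q hq)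
    · right
      intro p' hp' q' hq'
      obtain ⟨p, hp, rfl⟩ := List.mem_map.1 hp'
      obtain ⟨q, hq, rfl⟩ := List.mem_map.1 hq'
      exact h2 q (hmem C hC' q hq) p (hmem B hB' p hp) (h p hp q hq)
  · rw [hfl, List.length_map]; exact hk

theorem countP_lt_iff (S : List Pt) (f : Pt → ℕ) {p q : Pt} (hp : p ∈ S) :
    f p < f q ↔ S.countP (fun r => f r < f p) < S.countP (fun r => f r < f q) := by
  constructor
  · intro h
    induction S with
    | nil => simp at hp
    | cons r S ih =>
      have hle : S.countP (fun r => f r < f p) ≤ S.countP (fun r => f r < f q) :=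
        List.countP_mono_left fun r _ hr => by simp only [decide_eq_true_eq] at *; omega
      rw [List.countP_cons, List.countP_cons]
      rcases List.mem_cons.1 hp with rfl | hp'
      · simp [h]; omega
      · have := ih hp'
        by_cases h1 : f r < f p
        · have h2 : f r < f q := by omega
          simp [h1, h2, this]
        · simp only [h1, decide_false, Bool.false_eq_true, if_false]; omega
  · intro h
    by_contra hle
    have : S.countP (fun r => f r < f q) ≤ S.countP (fun r => f r < f p) :=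
      List.countP_mono_left fun r _ hr => by simp only [decide_eq_true_eq] at *; omega
    omega

/-- All records with entries below `M`. -/
def menu (M : ℕ) : List Rc :=
  (List.range M).flatMap fun j => (List.range M).flatMap fun y => (List.range M).map fun c => (j, y, c)

theorem mem_menu {M : ℕ} {r : Rc} : r ∈ menu M ↔ r.1 < M ∧ r.2.1 < M ∧ r.2.2 < M := by
  obtain ⟨a, b, c⟩ := r
  simp [menu]

def genStep (mn : List Rc) (L : List (List (List Rc))) : List (List (List Rc)) :=
  [] :: L.flatMap fun Q => ([] :: Q) :: mn.map fun r => (r :: Q.headD []) :: Q.tail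

/-- All patterns of weight at most `t`. -/
def gen (mn : List Rc) (t : ℕ) : List (List (List Rc)) := (genStep mn)^[t] [[]]

theorem mem_gen {mn : List Rc} : ∀ (t : ℕ) (Q : List (List Rc)), (∀ r ∈ Q.flatten, r ∈ mn) →
    Q.flatten.length + Q.length ≤ t → Q ∈ gen mn t
  | 0, Q, _, h => by
    have : Q = [] := List.length_eq_zero_iff.1 (by omega)
    simp [this, gen]
  | t + 1, [], _, _ => by rw [gen, iterate_succ_apply']; simp [genStep]
  | t + 1, [] :: Q, hm, h => by
    have := mem_gen t Q (by simpa using hm) (by simp at h ⊢; omega)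
    rw [gen, iterate_succ_apply']
    exact List.mem_cons_of_mem _ (List.mem_flatMap.2 ⟨Q, this, by simp⟩)
  | t + 1, (r :: B) :: Q, hm, h => by
    have := mem_gen t (B :: Q) (fun x hx => hm x (List.mem_cons_of_mem _ hx))
      (by simp at h ⊢; omega)
    rw [gen, iterate_succ_apply']
    exact List.mem_cons_of_mem _ (List.mem_flatMap.2 ⟨B :: Q, this,
      List.mem_cons_of_mem _ (List.mem_map.2 ⟨r, hm r (by simp), rfl⟩)⟩)

/-- The decision procedure, given the list of patterns. -/
def decideWith (pts : List Pt) (k : ℕ) (L : List (List (List Rc))) : Bool :=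
  !(lev pts (k + 1)).isEmpty || L.any fun Q => chk pts k (solve pts Q)

theorem decideWith_iff {pts : List Pt} (hs : pts.Pairwise (fun p q => p.1 < q.1))
    (hb : ∀ p ∈ pts, p.1 < pts.length ∧ p.2 < pts.length) (k : ℕ) :
    decideWith pts k (gen (menu (2 * k + 2)) (4 * k + 2)) = true ↔ Geo pts k := by
  simp only [decideWith, Bool.or_eq_true, Bool.not_eq_true', List.isEmpty_eq_false_iff,
    List.any_eq_true, chk_iff]
  constructor
  · rintro (h | ⟨Q, _, h⟩)
    · exact geo_of_lev h
    · exact ⟨_, h⟩
  · intro hg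
    by_cases h : lev pts (k + 1) = []
    · right
      obtain ⟨P, hP, hlen⟩ := exists_small h hg
      have hr : ∀ p : Pt, ∃ c, c ≤ k ∧ (p ∈ pts → p ∈ chain pts c) := by
        intro p
        by_cases hp : p ∈ pts
        · obtain ⟨c, hc, h2⟩ := exists_rank hp k (by simp [h])
          exact ⟨c, hc, fun _ => h2⟩
        · exact ⟨0, Nat.zero_le _, fun h' => absurd h' hp⟩
      choose rk hrk using hr
      let ann : Pt → Rc := fun p => (P.flatten.countP (fun r => r.1 < p.1),
        P.flatten.countP (fun r => r.2 < p.2), rk p)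
      obtain ⟨s, e, h0, h1, h2⟩ := solve_spec (P := P) (ann := ann) hs hb
        (fun p hp => (hrk p).2 (hP.1 p hp))
        (fun p hp q _ => countP_lt_iff P.flatten Prod.fst hp)
        (fun p hp q _ => countP_lt_iff P.flatten Prod.snd hp)
      refine ⟨P.map fun B => B.map ann, mem_gen _ _ ?_ ?_, e ▸ geoW_map hP h0 h1 h2⟩
      · rw [← List.map_flatten]
        intro r hr
        obtain ⟨p, _, rfl⟩ := List.mem_map.1 hr
        have a1 := List.countP_le_length (l := P.flatten) (p := fun r => r.1 < p.1)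
        have a2 := List.countP_le_length (l := P.flatten) (p := fun r => r.2 < p.2)
        have a3 := (hrk p).1
        exact mem_menu.2 ⟨by simp only [ann]; omega, by simp only [ann]; omega,
          by simp only [ann]; omega⟩
      · rw [← List.map_flatten, List.length_map, List.length_map]
        have := length_le_flatten P fun B hB => (hP.2.2.1 B hB).1
        omega
    · exact Or.inl h

end Pool.Agent.MP_eb915b_lc
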