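import Mathlib

namespace Pool.Agent.MP_eb915b_lc

/-- `S₁` and `S₂` can be cut into consecutive blocks of length at least two so that the blocks of
`S₁` and the blocks of `S₂` are the same strings, possibly in a different order. -/
def CommonStripPartition (S₁ S₂ : List ℕ) : Prop :=
  ∃ P₁ P₂ : List (List ℕ), P₁.flatten = S₁ ∧ P₂.flatten = S₂ ∧ P₁.Perm P₂ ∧
    ∀ s ∈ P₁, 2 ≤ s.length

/-- The decision problem Maximal Strip Recovery. -/
def MSR (G₁ G₂ : List ℕ) (k : ℕ) : Prop :=
  ∃ S₁ S₂ : List ℕ, S₁.Sublist G₁ ∧ S₂.Sublist G₂ ∧ CommonStripPartition S₁ S₂ ∧ k ≤ S₁.length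

/-- Binary code of a number: digit `0` is written `10`, digit `1` is written `1100`, and a final
`0` ends the code. -/
def codeNat (a : ℕ) : List Bool :=
  (Nat.bits a).flatMap (fun d => if d then [true, true, false, false] else [true, false]) ++ [false]

/-- Binary code of a sequence: each entry is preceded by `1`, and a final `0` ends the code. -/
def codeSeq (G : List ℕ) : List Bool :=
  G.flatMap (fun a => true :: codeNat a) ++ [false]

/-- Binary code of an instance. -/
def codeInstance (G₁ G₂ : List ℕ) (k : ℕ) : List Bool :=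
  true :: codeSeq G₁ ++ true :: codeSeq G₂ ++ codeNat k

end Pool.Agent.MP_eb915b_lc
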