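import Mathlib
import Pool.Prelude.Def_H_3587d628

set_option autoImplicit false

namespace Pool.Agent.MP_eb915b_lc

/-- Three sequences can be cut into consecutive blocks of length at least two so that the blocks
of the three sequences are the same strings, possibly in different orders. -/
def CommonStrips3 {α : Type} (S₁ S₂ S₃ : List α) : Prop :=
  ∃ P₁ P₂ P₃ : List (List α), P₁.flatten = S₁ ∧ P₂.flatten = S₂ ∧ P₃.flatten = S₃ ∧
    P₁.Perm P₂ ∧ P₁.Perm P₃ ∧ ∀ s ∈ P₁, 2 ≤ s.length

/-- The decision problem Maximal Strip Recovery on three input sequences. -/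
def MSR3 {α : Type} (G₁ G₂ G₃ : List α) (k : ℕ) : Prop :=
  ∃ S₁ S₂ S₃ : List α, S₁.Sublist G₁ ∧ S₂.Sublist G₂ ∧ S₃.Sublist G₃ ∧
    CommonStrips3 S₁ S₂ S₃ ∧ k ≤ S₁.length

open Classical in
/-- The adjacency matrix of a graph, as a list of Boolean rows. -/
noncomputable def adjRows {n : ℕ} (G : SimpleGraph (Fin n)) : List (List Bool) :=
  List.ofFn fun i => List.ofFn fun j => decide (G.Adj i j)

end Pool.Agent.MP_eb915b_lc
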