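import Pool.Agent.MP_eb915b_lc.Main

namespace Pool.Agent.Results.MP_eb915b_lc.FPT

open Pool.Agent.MP_eb915b_lc

/-- Maximal Strip Recovery on two permutations is fixed-parameter tractable for the number `k` of
retained characters: one finite multi-stack Turing machine decides it in `f k * (N + 1) ^ c`
steps, `N` being the input length, with `f` computable and at most `(k + 2) ^ (c * (k + 1))`. -/
theorem result :
    ∃ (M : Turing.TM2ComputableAux Bool Bool) (f : ℕ → ℕ) (c : ℕ),
      (∀ j, Finite (M.tm.Γ j)) ∧ Computable f ∧ (∀ k, f k ≤ (k + 2) ^ (c * (k + 1))) ∧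
      ∀ (G₁ G₂ : List ℕ) (k : ℕ), G₁.Nodup → G₁.Perm G₂ →
        ∃ b : Bool, (b = true ↔ MSR G₁ G₂ k) ∧
          Nonempty (Turing.TM2OutputsInTime M.tm
            ((codeInstance G₁ G₂ k).map M.inputAlphabet.symm)
            (some ([b].map M.outputAlphabet.symm))
            (f k * ((codeInstance G₁ G₂ k).length + 1) ^ c)) :=
  msr_fpt

end Pool.Agent.Results.MP_eb915b_lc.FPT
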