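import Pool.Agent.MP_eb915b_lc.Defs

/-!
Geometric reformulation of Maximal Strip Recovery on two permutations.
-/

namespace Pool.Agent.MP_eb915b_lc

abbrev Pt := ℕ × ℕ

/-- Two blocks of points have separated second coordinates. -/
def Sep (B C : List Pt) : Prop :=
  (∀ p ∈ B, ∀ q ∈ C, p.2 < q.2) ∨ (∀ p ∈ B, ∀ q ∈ C, q.2 < p.2)

/-- `P` is a geometric solution of total size at least `k`. -/
def GeoW (pts : List Pt) (k : ℕ) (P : List (List Pt)) : Prop :=
  (∀ p ∈ P.flatten, p ∈ pts) ∧ P.flatten.Pairwise (fun p q => p.1 < q.1) ∧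
    (∀ B ∈ P, 2 ≤ B.length ∧ B.Pairwise (fun p q => p.2 < q.2)) ∧ P.Pairwise Sep ∧
    k ≤ P.flatten.length

def Geo (pts : List Pt) (k : ℕ) : Prop := ∃ P, GeoW pts k P

theorem pairwise_idxOf {G : List ℕ} (h : G.Nodup) :
    G.Pairwise (fun a b => G.idxOf a < G.idxOf b) := by
  rw [List.pairwise_iff_getElem]
  intro i j hi hj hij
  rw [h.idxOf_getElem, h.idxOf_getElem]
  exact hij

theorem sublist_of_idx {G S : List ℕ} (h : G.Nodup) (hS : ∀ a ∈ S, a ∈ G)
    (hp : S.Pairwise (fun a b => G.idxOf a < G.idxOf b)) : S.Sublist G := by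
  have hnd : S.Nodup := hp.imp (fun {a b} hab e => by rw [e] at hab; exact lt_irrefl _ hab)
  have : Std.Antisymm (fun a b : ℕ => G.idxOf a < G.idxOf b) :=
    ⟨fun a b h1 h2 => absurd h1 (not_lt.2 h2.le)⟩
  exact List.sublist_of_subperm_of_pairwise (List.subperm_of_subset hnd hS) hp (pairwise_idxOf h)

theorem sep_symm {B C : List Pt} (h : Sep B C) : Sep C B := by
  rcases h with h | h
  · exact Or.inr fun p hp q hq => h q hq p hp
  · exact Or.inl fun p hp q hq => h q hq p hp

theorem exists_sorted {P : List (List Pt)} (hne : ∀ B ∈ P, B ≠ []) (h : P.Pairwise Sep) :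
    ∃ P' : List (List Pt), P.Perm P' ∧ P'.Pairwise (fun B C => ∀ p ∈ B, ∀ q ∈ C, p.2 < q.2) := by
  let key : List Pt → ℕ := fun B => (B.headD (0, 0)).2
  let le : List Pt → List Pt → Bool := fun B C => decide (key B ≤ key C)
  have hperm : (P.mergeSort le).Perm P := List.mergeSort_perm P le
  have h1 : (P.mergeSort le).Pairwise (fun B C => le B C = true) :=
    List.pairwise_mergeSort (le := le)
      (fun a b c hab hbc => by simp only [le, decide_eq_true_eq] at *; omega)
      (fun a b => by simp only [le, Bool.or_eq_true, decide_eq_true_eq]; omega) P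
  have h2 : (P.mergeSort le).Pairwise Sep := hperm.symm.pairwise h (fun h => sep_symm h)
  refine ⟨_, hperm.symm, ?_⟩
  refine List.Pairwise.imp_of_mem (fun {B C} hB hC hBC => ?_) (h1.and h2)
  rcases hBC.2 with h3 | h3
  · exact h3
  · exfalso
    have hB' := hne B (hperm.subset hB)
    have hC' := hne C (hperm.subset hC)
    obtain ⟨p, B, rfl⟩ := List.exists_cons_of_ne_nil hB'
    obtain ⟨q, C, rfl⟩ := List.exists_cons_of_ne_nil hC'
    have h4 := h3 p (by simp) q (by simp)
    have h5 := hBC.1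
    simp only [le, key, List.headD_cons, decide_eq_true_eq] at h5
    omega

/-- The point of a character. -/
def ptOf (G₁ G₂ : List ℕ) (a : ℕ) : Pt := (G₁.idxOf a, G₂.idxOf a)

theorem msr_iff_geo {G₁ G₂ : List ℕ} (h₁ : G₁.Nodup) (hp : G₁.Perm G₂) (k : ℕ) :
    MSR G₁ G₂ k ↔ Geo (G₁.map (ptOf G₁ G₂)) k := by
  have h₂ : G₂.Nodup := hp.nodup_iff.1 h₁
  constructor
  · rintro ⟨_, _, hs1, hs2, ⟨P₁, P₂, rfl, rfl, hP, hlen⟩, hk⟩
    have hy := (pairwise_idxOf h₂).sublist hs2
    refine ⟨P₁.map (List.map (ptOf G₁ G₂)), ?_, ?_, ?_, ?_, ?_⟩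
    · rw [← List.map_flatten]
      intro p hp
      obtain ⟨a, ha, rfl⟩ := List.mem_map.1 hp
      exact List.mem_map_of_mem (hs1.subset ha)
    · rw [← List.map_flatten, List.pairwise_map]
      exact (pairwise_idxOf h₁).sublist hs1
    · intro B hB
      obtain ⟨s, hs, rfl⟩ := List.mem_map.1 hB
      refine ⟨by simpa using hlen s hs, ?_⟩
      rw [List.pairwise_map]
      exact hy.sublist (List.sublist_flatten_of_mem (hP.subset hs))
    · rw [List.pairwise_map]
      refine hP.symm.pairwise ?_ (fun h => sep_symm h)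
      refine (List.pairwise_flatten.1 hy).2.imp fun {B C} h => Or.inl ?_
      intro p hp q hq
      obtain ⟨a, ha, rfl⟩ := List.mem_map.1 hp
      obtain ⟨b, hb, rfl⟩ := List.mem_map.1 hq
      exact h a ha b hb
    · rw [← List.map_flatten, List.length_map]; exact hk
  · rintro ⟨P, hmem, hx, hB, hsep, hk⟩
    have hch : ∀ p : Pt, ∃ a : ℕ, p ∈ G₁.map (ptOf G₁ G₂) → a ∈ G₁ ∧ ptOf G₁ G₂ a = p := by
      intro p
      by_cases h : p ∈ G₁.map (ptOf G₁ G₂)
      · obtain ⟨a, ha, e⟩ := List.mem_map.1 h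
        exact ⟨a, fun _ => ⟨ha, e⟩⟩
      · exact ⟨0, fun h' => absurd h' h⟩
    choose ch hch using hch
    obtain ⟨P', hPP', hsort⟩ := exists_sorted (P := P)
      (fun B hB' e => by have := (hB B hB').1; rw [e] at this; simp at this) hsep
    have hfl : P.flatten.Perm P'.flatten := hPP'.flatten
    have hmem' : ∀ p ∈ P'.flatten, p ∈ G₁.map (ptOf G₁ G₂) := fun p hp =>
      hmem p (hfl.symm.subset hp)
    refine ⟨P.flatten.map ch, P'.flatten.map ch, ?_, ?_,
      ⟨P.map (List.map ch), P'.map (List.map ch), (List.map_flatten).symm,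
        (List.map_flatten).symm, hPP'.map _, ?_⟩, by rw [List.length_map]; exact hk⟩
    · refine sublist_of_idx h₁ ?_ ?_
      · intro a ha
        obtain ⟨p, hp, rfl⟩ := List.mem_map.1 ha
        exact (hch p (hmem p hp)).1
      · rw [List.pairwise_map]
        refine List.Pairwise.imp_of_mem (fun {p q} hp hq hpq => ?_) hx
        have e1 := congrArg Prod.fst (hch p (hmem p hp)).2
        have e2 := congrArg Prod.fst (hch q (hmem q hq)).2
        simp only [ptOf] at e1 e2
        omega
    · refine sublist_of_idx h₂ ?_ ?_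
      · intro a ha
        obtain ⟨p, hp', rfl⟩ := List.mem_map.1 ha
        exact hp.subset (hch p (hmem' p hp')).1
      · rw [List.pairwise_map]
        have hy : P'.flatten.Pairwise (fun p q => p.2 < q.2) :=
          List.pairwise_flatten.2 ⟨fun B hB' => (hB B (hPP'.symm.subset hB')).2, hsort⟩
        refine List.Pairwise.imp_of_mem (fun {p q} hp hq hpq => ?_) hy
        have e1 := congrArg Prod.snd (hch p (hmem' p hp)).2
        have e2 := congrArg Prod.snd (hch q (hmem' q hq)).2
        simp only [ptOf] at e1 e2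
        omega
    · intro s hs
      obtain ⟨B, hB', rfl⟩ := List.mem_map.1 hs
      simpa using (hB B hB').1

end Pool.Agent.MP_eb915b_lc
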