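import Mathlib
import Pool.Prelude.Def_H_3587d628

set_option autoImplicit false

namespace Pool.Agent.MP_eb915b_lc.Ker

/-- Two sequences can be cut into consecutive blocks of length at least two so that the blocks
of the two sequences are the same strings, possibly in different orders. -/
def CommonStrips {α : Type} (S₁ S₂ : List α) : Prop :=
  ∃ P₁ P₂ : List (List α), P₁.flatten = S₁ ∧ P₂.flatten = S₂ ∧ P₁.Perm P₂ ∧
    ∀ s ∈ P₁, 2 ≤ s.length

/-- The decision problem Maximal Strip Recovery on two input sequences. -/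
def MSR {α : Type} (G₁ G₂ : List α) (k : ℕ) : Prop :=
  ∃ S₁ S₂ : List α, S₁.Sublist G₁ ∧ S₂.Sublist G₂ ∧ CommonStrips S₁ S₂ ∧ k ≤ S₁.length

/-- Nondeterministic polynomial time with polynomial advice. -/
def NPpoly : Set (List Bool → Bool) :=
  {L | ∃ (p : Polynomial ℕ) (a : ℕ → List Bool) (R : List Bool × List Bool × List Bool → Bool),
    N68a2faeb.IsPolyTime R ∧ (∀ n, (a n).length ≤ p.eval n) ∧
      ∀ x, L x = true ↔ ∃ w : List Bool, w.length ≤ p.eval x.length ∧ R (x, a x.length, w) = true}

end Pool.Agent.MP_eb915b_lc.Ker
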