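import Pool.Agent.MP_eb915b_lc.Typed

/-!
A library of polynomial-time list and number functions.
-/

namespace Pool.Agent.MP_eb915b_lc

open Function Enc

variable {α β γ σ : Type} [Enc α] [Enc β] [Enc γ] [Enc σ]

/-- Loop with an idle final state. -/
theorem TB.loop' {μ : α → ℕ} {c : σ → T} {f : σ → σ} (hc : PT c) (hf : PT f) {s : α → σ}
    (hs : TB μ s) {n B : α → ℕ} (hn : Poly μ n) (hB : Poly μ B)
    (h1 : ∀ x, c x = .nil → f x = x) (h2 : ∀ a, c (f^[n a] (s a)) = .nil)
    (h3 : ∀ a, ∀ i ≤ n a, sz (f^[i] (s a)) ≤ B a) : TB μ (fun a => f^[n a] (s a)) := by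
  classical
  have ex : ∀ a, ∃ i, c (f^[i] (s a)) = .nil := fun a => ⟨n a, h2 a⟩
  have hle : ∀ a, Nat.find (ex a) ≤ n a := fun a => Nat.find_min' (ex a) (h2 a)
  refine (TB.loop hc hf hs (n := fun a => Nat.find (ex a)) (hn.mono hle) hB
    (fun a i hi => Nat.find_min (ex a) hi) (fun a => Nat.find_spec (ex a))
    (fun a i hi => h3 a i (hi.trans (hle a)))).congr fun a => ?_
  obtain ⟨d, hd⟩ := Nat.exists_eq_add_of_le' (hle a)
  rw [hd, iterate_add_apply]
  exact iterate_fixed (h1 _ (Nat.find_spec (ex a))) d

omit [Enc β] in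
theorem sz_foldl_le {g : σ → β → σ} {C : ℕ} :
    ∀ (l : List β) (s : σ), (∀ s, ∀ x ∈ l, sz (g s x) ≤ sz s + C) →
      sz (l.foldl g s) ≤ sz s + l.length * C
  | [], s, _ => by simp
  | x :: l, s, h => by
    have h1 := sz_foldl_le l (g s x) (fun s y hy => h s y (by simp [hy]))
    have h2 := h s x (by simp)
    simp only [List.foldl_cons, List.length_cons]
    nlinarith

namespace PT

/-- Left fold whose state grows additively. -/
theorem foldl_add {g : α → σ → β → σ} {l : α → List β} {s : α → σ}
    (hg : PT (fun p : α × σ × β => g p.1 p.2.1 p.2.2)) (hl : PT l) (hs : PT s)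
    {q : α × β → ℕ} (hq : Poly sz q) (h : ∀ a s x, sz (g a s x) ≤ sz s + q (a, x)) :
    PT (fun a => (l a).foldl (g a) (s a)) := by
  obtain ⟨C, hC, hC'⟩ := hq.bound (B := fun a => sz a + sz (l a) + 1)
    ((Poly.self.add hl.size).add (Poly.const 1))
  refine TB.foldl hg hl hs (B := fun a => sz (s a) + sz (l a) * C a)
    (hs.size.add (hl.size.mul hC)) fun a i => ?_
  have h1 := sz_foldl_le (g := g a) (C := C a) ((l a).take i) (s a) (fun t x hx => by
    have h2 := h a t x
    have h3 := hC' a (a, x) (by
      have := sz_mem (List.mem_of_mem_take hx)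
      simp only [sz_pair]; omega)
    omega)
  have h2 : ((l a).take i).length ≤ sz (l a) :=
    (List.take_sublist i (l a)).length_le.trans (length_le_sz _)
  have := Nat.mul_le_mul_right (C a) h2
  omega

theorem sz_snd : Poly sz (fun p : α × β => sz p.2) := Poly.self.mono fun p => by
  rw [sz_prod]; omega

@[fun_prop] theorem reverse {l : α → List β} (hl : PT l) : PT (fun a => (l a).reverse) := by
  refine TB.congr (foldl_add (g := fun _ s x => x :: s) (s := fun _ => [])
    (by fun_prop) hl (by fun_prop) (sz_snd.add (Poly.const 1)) (fun a s x => by simp; omega))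
    fun a => ?_
  simp

/-- Right fold whose state grows additively. -/
theorem foldr_add {g : α → β → σ → σ} {l : α → List β} {s : α → σ}
    (hg : PT (fun p : α × β × σ => g p.1 p.2.1 p.2.2)) (hl : PT l) (hs : PT s)
    {q : α × β → ℕ} (hq : Poly sz q) (h : ∀ a x s, sz (g a x s) ≤ sz s + q (a, x)) :
    PT (fun a => (l a).foldr (g a) (s a)) := by
  have hg' : PT (fun p : α × σ × β => g p.1 p.2.2 p.2.1) :=
    comp (g := fun p : α × σ × β => (p.1, p.2.2, p.2.1)) hg (by fun_prop)
  refine TB.congr (foldl_add (g := fun a s x => g a x s) hg' (reverse hl) hs hq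
    (fun a s x => h a x s)) fun a => ?_
  simp

@[fun_prop] theorem append {l m : α → List β} (hl : PT l) (hm : PT m) :
    PT (fun a => l a ++ m a) := by
  refine TB.congr (foldr_add (g := fun _ x s => x :: s)
    (by fun_prop) hl hm (sz_snd.add (Poly.const 1)) (fun a x s => by simp; omega)) fun a => ?_
  simp

@[fun_prop] theorem flatMap {l : α → List β} {f : α → β → List γ} (hl : PT l)
    (hf : PT (fun p : α × β => f p.1 p.2)) : PT (fun a => (l a).flatMap (f a)) := by
  have hf' : PT (fun p : α × β × List γ => f p.1 p.2.1) :=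
    comp (g := fun p : α × β × List γ => (p.1, p.2.1)) hf (by fun_prop)
  refine TB.congr (foldr_add (g := fun a x s => f a x ++ s) (s := fun _ => [])
    (by fun_prop) hl (by fun_prop) hf.size (fun a x s => by
      have := sz_append (f a x) s
      simp only; omega)) fun a => ?_
  induction l a with
  | nil => rfl
  | cons x xs ih => simp [← ih]

@[fun_prop] theorem map {l : α → List β} {f : α → β → γ} (hl : PT l)
    (hf : PT (fun p : α × β => f p.1 p.2)) : PT (fun a => (l a).map (f a)) := by
  refine TB.congr (flatMap (f := fun a x => [f a x]) hl (by fun_prop)) fun a => ?_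
  induction l a with
  | nil => rfl
  | cons x xs ih => simp [ih]

@[fun_prop] theorem filter {l : α → List β} {f : α → β → Bool} (hl : PT l)
    (hf : PT (fun p : α × β => f p.1 p.2)) : PT (fun a => (l a).filter (f a)) := by
  refine TB.congr (flatMap (f := fun a x => bif f a x then [x] else []) hl (by fun_prop))
    fun a => ?_
  induction l a with
  | nil => rfl
  | cons x xs ih => cases h : f a x <;> simp [ih, h]

@[fun_prop] theorem flatten {l : α → List (List β)} (hl : PT l) : PT (fun a => (l a).flatten) := by
  refine TB.congr (flatMap (f := fun _ x => x) hl (by fun_prop)) fun a => ?_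
  simp

@[fun_prop] theorem any {l : α → List β} {f : α → β → Bool} (hl : PT l)
    (hf : PT (fun p : α × β => f p.1 p.2)) : PT (fun a => (l a).any (f a)) := by
  refine TB.congr (not (isEmpty (filter hl hf))) fun a => ?_
  induction l a with
  | nil => rfl
  | cons x xs ih => cases h : f a x <;> simp [ih, h]

@[fun_prop] theorem all {l : α → List β} {f : α → β → Bool} (hl : PT l)
    (hf : PT (fun p : α × β => f p.1 p.2)) : PT (fun a => (l a).all (f a)) := by
  refine TB.congr (not (any (f := fun a x => !f a x) hl (not hf))) fun a => ?_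
  induction l a with
  | nil => rfl
  | cons x xs ih => cases h : f a x <;> simp [ih, h]

theorem enc_replicate (n : ℕ) : enc (List.replicate n ()) = enc n := by
  induction n with
  | zero => rfl
  | succ n ih => rw [List.replicate_succ, enc_cons, ih]; rfl

theorem replicateUnit {n : α → ℕ} (hn : PT n) : PT (fun a => List.replicate (n a) ()) :=
  TB.of_enc_eq hn fun _ => enc_replicate _

@[fun_prop] theorem length {l : α → List β} (hl : PT l) : PT (fun a => (l a).length) := by
  refine TB.of_enc_eq (map (f := fun _ _ => ()) hl (by fun_prop)) fun a => ?_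
  rw [← enc_replicate, List.map_const']

@[fun_prop] theorem add {m n : α → ℕ} (hm : PT m) (hn : PT n) : PT (fun a => m a + n a) :=
  TB.congr (length (append (replicateUnit hm) (replicateUnit hn))) fun a => by simp

@[fun_prop] theorem mul {m n : α → ℕ} (hm : PT m) (hn : PT n) : PT (fun a => m a * n a) := by
  have h : PT (fun p : α × Unit => List.replicate (n p.1) ()) :=
    replicateUnit (comp hn (by fun_prop))
  refine TB.congr (length (flatMap (f := fun a _ => List.replicate (n a) ())
    (replicateUnit hm) h)) fun a => ?_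
  simp

end PT

omit [Enc σ] in
theorem foldl_replicate (f : σ → σ) (n : ℕ) (s : σ) :
    (List.replicate n ()).foldl (fun s _ => f s) s = f^[n] s := by
  induction n generalizing s with
  | zero => rfl
  | succ n ih => rw [List.replicate_succ, List.foldl_cons, ih]; rfl

/-- Bounded iteration. -/
theorem TB.iterate {μ : α → ℕ} {f : α → σ → σ} {n : α → ℕ} {s : α → σ}
    (hf : PT (fun p : α × σ => f p.1 p.2)) (hn : TB μ n) (hs : TB μ s)
    {B : α → ℕ} (hB : Poly μ B) (h : ∀ a, ∀ i ≤ n a, sz ((f a)^[i] (s a)) ≤ B a) :
    TB μ (fun a => (f a)^[n a] (s a)) := by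
  have hf' : PT (fun p : α × σ × Unit => f p.1 p.2.1) :=
    PT.comp (g := fun p : α × σ × Unit => (p.1, p.2.1)) hf (by fun_prop)
  have hn' : TB μ (fun a => List.replicate (n a) ()) :=
    TB.of_enc_eq hn fun _ => PT.enc_replicate _
  refine (TB.foldl (g := fun a s (_ : Unit) => f a s) hf' hn' hs hB fun a i => ?_).congr
    fun a => (foldl_replicate _ _ _).symm
  rw [List.take_replicate, foldl_replicate]
  exact h a _ (min_le_right _ _)

namespace PT

@[fun_prop] theorem sub {m n : α → ℕ} (hm : PT m) (hn : PT n) : PT (fun a => m a - n a) := by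
  have key : ∀ i x : ℕ, (fun s : ℕ => s - 1)^[i] x = x - i := by
    intro i
    induction i with
    | zero => simp
    | succ i ih => intro x; rw [iterate_succ_apply, ih]; omega
  refine (TB.iterate (f := fun _ s => s - 1) (by fun_prop) hn hm hm.size fun a i _ => ?_).congr
    fun a => (key _ _).symm
  rw [key]; simp

theorem isZero {n : α → ℕ} (hn : PT n) : PT (fun a => decide (n a = 0)) :=
  TB.congr (isEmpty (replicateUnit hn)) fun a => by cases n a <;> simp [List.replicate_succ]

@[fun_prop] theorem ble {m n : α → ℕ} (hm : PT m) (hn : PT n) : PT (fun a => (m a).ble (n a)) :=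
  TB.congr (isZero (sub hm hn)) fun a => by
    rw [Bool.eq_iff_iff]; simp [Nat.sub_eq_zero_iff_le]

@[fun_prop] theorem blt {m n : α → ℕ} (hm : PT m) (hn : PT n) : PT (fun a => (m a).blt (n a)) :=
  TB.congr (ble (succ hm) hn) fun _ => rfl

@[fun_prop] theorem range {n : α → ℕ} (hn : PT n) : PT (fun a => List.range (n a)) := by
  have key : ∀ i : ℕ, (fun s : List ℕ => s ++ [s.length])^[i] [] = List.range i := by
    intro i
    induction i with
    | zero => simp
    | succ i ih => rw [iterate_succ_apply', ih, List.range_succ]; simp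
  refine (TB.iterate (f := fun _ (s : List ℕ) => s ++ [s.length]) (s := fun _ => [])
    (by fun_prop) hn (PT.const _) (B := fun a => sz (n a) * (sz (n a) + 1) + 1)
    ((hn.size.mul (hn.size.add (Poly.const 1))).add (Poly.const 1)) fun a i hi => ?_).congr
    fun a => (key _).symm
  rw [key]
  have h1 := sz_le_of_forall (l := List.range i) (B := sz (n a)) (fun x hx => by
    simp at hx ⊢; omega)
  have h2 : (List.range i).length ≤ sz (n a) := by simp; omega
  have := Nat.mul_le_mul_right (sz (n a) + 1) h2
  omega

end PT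

/-- Test for the empty tree. -/
def T.isNil : T → Bool
  | .nil => true
  | .cons _ _ => false

@[fun_prop] theorem PT.isNil {f : α → T} (hf : PT f) : PT (fun a => (f a).isNil) := by
  refine PT.condT hf (PT.const false) (PT.const true) (fun a h => ?_) (fun a h => ?_)
  · cases hfa : f a
    · exact absurd hfa h
    · rfl
  · rw [h]; rfl

/-- One step of the worklist algorithm for tree equality. -/
def eqStep (p : List (T × T) × Bool) : List (T × T) × Bool :=
  lcase p.1 p fun q w =>
    bif q.1.isNil then (w, p.2 && q.2.isNil)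
    else ((q.1.hd, q.2.hd) :: (q.1.tl, q.2.tl) :: w, p.2 && !q.2.isNil)

open Classical in
theorem eqStep_iter : ∀ (t s : T) (w : List (T × T)) (fl : Bool),
    eqStep^[t.size] ((t, s) :: w, fl) = (w, fl && decide (t = s))
  | .nil, s, w, fl => by cases s <;> simp [T.size, eqStep, T.isNil]
  | .cons a b, s, w, fl => by
    have e : (T.cons a b).size = b.size + a.size + 1 := by simp [T.size]; omega
    have e2 : eqStep ((T.cons a b, s) :: w, fl) =
        ((a, s.hd) :: (b, s.tl) :: w, fl && !s.isNil) := rfl
    rw [e, iterate_succ_apply, e2, iterate_add_apply, eqStep_iter a, eqStep_iter b]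
    rw [Prod.mk.injEq, Bool.eq_iff_iff]
    cases s <;> cases fl <;> simp [T.isNil, T.hd, T.tl]

theorem sz_eqStep (p : List (T × T) × Bool) : sz (eqStep p) ≤ sz p + 8 := by
  obtain ⟨_ | ⟨⟨t, s⟩, w⟩, fl⟩ := p
  · simp [eqStep]
  · have h1 := sz_pos fl
    cases t with
    | nil =>
      have h2 := sz_bool (fl && s.isNil)
      simp [eqStep, T.isNil, T.size] at h2 ⊢
      omega
    | cons a b =>
      have h2 := sz_bool (fl && !s.isNil)
      cases s <;> simp [eqStep, T.isNil, T.size, T.hd, T.tl] at h2 ⊢ <;> omega

open Classical in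
theorem PT.eqT : PT (fun p : T × T => decide (p.1 = p.2)) := by
  have hstep : PT eqStep := by unfold eqStep; fun_prop
  have h0 : PT (fun p : T × T => ([p], true)) := by fun_prop
  have hb : ∀ (i : ℕ) (x : List (T × T) × Bool), sz (eqStep^[i] x) ≤ sz x + 8 * i := by
    intro i x
    induction i with
    | zero => simp
    | succ i ih => rw [iterate_succ_apply']; have := sz_eqStep (eqStep^[i] x); omega
  have hn : Poly sz (fun p : T × T => p.1.size) := Poly.self.mono fun p => by
    rw [sz_prod]; simp; omega
  have h1 := TB.loop' (c := fun x : List (T × T) × Bool => enc x.1) (by fun_prop) hstep h0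
    (n := fun p => p.1.size) hn (h0.size.add ((Poly.const 8).mul hn))
    (fun x hx => by
      obtain ⟨_ | ⟨q, w⟩, fl⟩ := x
      · rfl
      · cases hx)
    (fun p => by rw [eqStep_iter]; rfl)
    (fun p i hi => (hb i _).trans (by omega))
  refine (TB.comp_pt (g := fun x : List (T × T) × Bool => x.2) (by fun_prop) h1).congr fun p => ?_
  rw [eqStep_iter]; simp

namespace PT

@[fun_prop] theorem beq [BEq β] [LawfulBEq β] {f g : α → β} (hf : PT f) (hg : PT g) :
    PT (fun a => f a == g a) := by
  refine TB.congr (comp eqT (pair (enc' hf) (enc' hg))) fun a => ?_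
  rw [Bool.eq_iff_iff]
  simp [Enc.inj.eq_iff]

@[fun_prop] theorem contains [BEq β] [LawfulBEq β] {l : α → List β} {f : α → β} (hl : PT l)
    (hf : PT f) : PT (fun a => (l a).contains (f a)) := by
  refine TB.congr (any (f := fun a x => f a == x) hl (by fun_prop)) fun a => ?_
  rw [Bool.eq_iff_iff]; simp

@[fun_prop] theorem idxOf [BEq β] [LawfulBEq β] {l : α → List β} {f : α → β} (hl : PT l)
    (hf : PT f) : PT (fun a => (l a).idxOf (f a)) := by
  refine TB.congr (foldr_add (g := fun a x (s : ℕ) => bif x == f a then 0 else s + 1)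
    (s := fun _ => 0) (by fun_prop) hl (by fun_prop) (Poly.const 2) (fun a x s => by
      cases x == f a <;> simp; omega)) fun a => ?_
  induction l a with
  | nil => rfl
  | cons x xs ih => rw [List.foldr_cons, ← ih, List.idxOf_cons]

@[fun_prop] theorem headD {l : α → List β} {d : α → β} (hl : PT l) (hd : PT d) :
    PT (fun a => (l a).headD (d a)) :=
  TB.congr (lcase (f := fun _ x _ => x) hl hd (by fun_prop)) fun a => by cases l a <;> rfl

end PT

end Pool.Agent.MP_eb915b_lc
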