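import Mathlib

/-!
A small structured language acting on five binary stacks, with a step-counting big-step semantics,
and its compilation to Mathlib's `Turing.FinTM2`.
-/

namespace Pool.Agent.MP_eb915b_lc

open Turing Function

/-- Structured stack programs. -/
inductive Prog
  | skip
  | push (k : Fin 5) (b : Bool)
  | seq (p q : Prog)
  | cas (k : Fin 5) (p0 p1 p2 : Prog)
  | loop (k : Fin 5) (p1 p2 : Prog)

abbrev St := Fin 5 → List Bool

/-- `Run p S S' n`: started on `S`, the program `p` ends in `S'` at cost at most `n`. -/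
inductive Run : Prog → St → St → ℕ → Prop
  | skip (S : St) : Run .skip S S 0
  | push (k : Fin 5) (b : Bool) (S : St) : Run (.push k b) S (update S k (b :: S k)) 1
  | seq {p q : Prog} {S S' S'' : St} {m n : ℕ} :
      Run p S S' m → Run q S' S'' n → Run (.seq p q) S S'' (m + n)
  | cas0 {k : Fin 5} {p0 p1 p2 : Prog} {S S' : St} {n : ℕ} :
      S k = [] → Run p0 S S' n → Run (.cas k p0 p1 p2) S S' (n + 1)
  | cas1 {k : Fin 5} {p0 p1 p2 : Prog} {S S' : St} {n : ℕ} {r : List Bool} :
      S k = false :: r → Run p1 (update S k r) S' n → Run (.cas k p0 p1 p2) S S' (n + 1)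
  | cas2 {k : Fin 5} {p0 p1 p2 : Prog} {S S' : St} {n : ℕ} {r : List Bool} :
      S k = true :: r → Run p2 (update S k r) S' n → Run (.cas k p0 p1 p2) S S' (n + 1)
  | loop0 {k : Fin 5} {p1 p2 : Prog} {S : St} :
      S k = [] → Run (.loop k p1 p2) S S 1
  | loop1 {k : Fin 5} {p1 p2 : Prog} {S S' S'' : St} {m n : ℕ} {r : List Bool} :
      S k = false :: r → Run p1 (update S k r) S' m → Run (.loop k p1 p2) S' S'' n →
        Run (.loop k p1 p2) S S'' (m + n + 1)
  | loop2 {k : Fin 5} {p1 p2 : Prog} {S S' S'' : St} {m n : ℕ} {r : List Bool} :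
      S k = true :: r → Run p2 (update S k r) S' m → Run (.loop k p1 p2) S' S'' n →
        Run (.loop k p1 p2) S S'' (m + n + 1)
  | mono {p : Prog} {S S' : St} {m n : ℕ} : Run p S S' m → m ≤ n → Run p S S' n

theorem Run.length_le {p : Prog} {S S' : St} {n : ℕ} (h : Run p S S' n) (j : Fin 5) :
    (S' j).length ≤ (S j).length + n := by
  have key : ∀ (S : St) (k : Fin 5) (b : Bool) (r : List Bool), S k = b :: r →
      (update S k r j).length ≤ (S j).length := by
    intro S k b r h
    by_cases hj : j = k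
    · subst hj; simp [h]
    · simp [update_of_ne hj]
  induction h with
  | skip S => simp
  | push k b S =>
    by_cases hj : j = k
    · subst hj; simp
    · simp [update_of_ne hj]
  | seq _ _ ih1 ih2 => omega
  | cas0 _ _ ih => omega
  | cas1 h _ ih => have := key _ _ _ _ h; omega
  | cas2 h _ ih => have := key _ _ _ _ h; omega
  | loop0 _ => omega
  | loop1 h _ _ ih1 ih2 => have := key _ _ _ _ h; omega
  | loop2 h _ _ ih1 ih2 => have := key _ _ _ _ h; omega
  | mono _ hle ih => omega

/-- The labels of a program: one for each loop. -/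
def Lbl : Prog → Type
  | .skip => Empty
  | .push _ _ => Empty
  | .seq p q => Lbl p ⊕ Lbl q
  | .cas _ p0 p1 p2 => Lbl p0 ⊕ Lbl p1 ⊕ Lbl p2
  | .loop _ p1 p2 => Option (Lbl p1 ⊕ Lbl p2)

theorem finite_lbl : ∀ p : Prog, Finite (Lbl p)
  | .skip => inferInstanceAs (Finite Empty)
  | .push _ _ => inferInstanceAs (Finite Empty)
  | .seq p q => by
      have := finite_lbl p; have := finite_lbl q
      exact inferInstanceAs (Finite (Lbl p ⊕ Lbl q))
  | .cas _ p0 p1 p2 => by
      have := finite_lbl p0; have := finite_lbl p1; have := finite_lbl p2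
      exact inferInstanceAs (Finite (Lbl p0 ⊕ Lbl p1 ⊕ Lbl p2))
  | .loop _ p1 p2 => by
      have := finite_lbl p1; have := finite_lbl p2
      exact inferInstanceAs (Finite (Option (Lbl p1 ⊕ Lbl p2)))

abbrev Stm (Λ : Type) := TM2.Stmt (fun _ : Fin 5 => Bool) Λ (Option Bool)

/-- Pop stack `k` and branch on the popped symbol. -/
def br {Λ : Type} (k : Fin 5) (q0 q1 q2 : Stm Λ) : Stm Λ :=
  .pop k (fun _ o => o)
    (.branch (fun v => v.isNone) q0 (.branch (fun v => v == some false) q1 q2))

/-- Entry statement of a program with continuation `q`. -/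
def tr {Λ : Type} : (p : Prog) → (Lbl p → Λ) → Stm Λ → Stm Λ
  | .skip, _, q => q
  | .push k b, _, q => .push k (fun _ => b) q
  | .seq p p', ι, q => tr p (fun l => ι (.inl l)) (tr p' (fun l => ι (.inr l)) q)
  | .cas k p0 p1 p2, ι, q =>
      br k (tr p0 (fun l => ι (.inl l)) q) (tr p1 (fun l => ι (.inr (.inl l))) q)
        (tr p2 (fun l => ι (.inr (.inr l))) q)
  | .loop _ _ _, ι, _ => .goto (fun _ => ι none)

/-- The statement attached to each label. -/
def body {Λ : Type} : (p : Prog) → (Lbl p → Λ) → Stm Λ → Lbl p → Stm Λ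
  | .skip, _, q, _ => q
  | .push _ _, _, q, _ => q
  | .seq p p', ι, q, .inl l => body p (fun l => ι (.inl l)) (tr p' (fun l => ι (.inr l)) q) l
  | .seq _ p', ι, q, .inr l => body p' (fun l => ι (.inr l)) q l
  | .cas _ p0 _ _, ι, q, .inl l => body p0 (fun l => ι (.inl l)) q l
  | .cas _ _ p1 _, ι, q, .inr (.inl l) => body p1 (fun l => ι (.inr (.inl l))) q l
  | .cas _ _ _ p2, ι, q, .inr (.inr l) => body p2 (fun l => ι (.inr (.inr l))) q l
  | .loop k p1 p2, ι, q, none =>
      br k q (tr p1 (fun l => ι (some (.inl l))) (.goto fun _ => ι none))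
        (tr p2 (fun l => ι (some (.inr l))) (.goto fun _ => ι none))
  | .loop _ p1 _, ι, _, some (.inl l) =>
      body p1 (fun l => ι (some (.inl l))) (.goto fun _ => ι none) l
  | .loop _ _ p2, ι, _, some (.inr l) =>
      body p2 (fun l => ι (some (.inr l))) (.goto fun _ => ι none) l

section Sim

variable {Λ : Type} (M : Λ → Stm Λ)

abbrev Cf (Λ : Type) := TM2.Cfg (fun _ : Fin 5 => Bool) Λ (Option Bool)

/-- `Steps M c c' n`: the machine goes from `c` to `c'` in at most `n` steps. -/
def Steps (c c' : Cf Λ) (n : ℕ) : Prop :=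
  ∃ m ≤ n, (flip bind (TM2.step M))^[m] (some c) = some c'

theorem Steps.refl (c : Cf Λ) : Steps M c c 0 := ⟨0, le_rfl, rfl⟩

variable {M}

theorem Steps.trans {c c' c'' : Cf Λ} {m n : ℕ} (h : Steps M c c' m) (h' : Steps M c' c'' n) :
    Steps M c c'' (m + n) := by
  obtain ⟨a, ha, h⟩ := h
  obtain ⟨b, hb, h'⟩ := h'
  exact ⟨b + a, by omega, by rw [iterate_add_apply, h, h']⟩

theorem Steps.mono {c c' : Cf Λ} {m n : ℕ} (h : Steps M c c' m) (hle : m ≤ n) :
    Steps M c c' n := by
  obtain ⟨a, ha, h⟩ := h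
  exact ⟨a, by omega, h⟩

theorem Steps.one (l : Λ) (v : Option Bool) (S : St) :
    Steps M ⟨some l, v, S⟩ (TM2.stepAux (M l) v S) 1 := ⟨1, le_rfl, rfl⟩

theorem br_nil {k : Fin 5} {q0 q1 q2 : Stm Λ} {v : Option Bool} {S : St} (h : S k = []) :
    TM2.stepAux (br k q0 q1 q2) v S = TM2.stepAux q0 none S := by
  have : update S k [] = S := by rw [← h]; exact update_eq_self k S
  simp [br, h, this]

theorem br_false {k : Fin 5} {q0 q1 q2 : Stm Λ} {v : Option Bool} {S : St} {r : List Bool}
    (h : S k = false :: r) :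
    TM2.stepAux (br k q0 q1 q2) v S = TM2.stepAux q1 (some false) (update S k r) := by
  simp [br, h]

theorem br_true {k : Fin 5} {q0 q1 q2 : Stm Λ} {v : Option Bool} {S : St} {r : List Bool}
    (h : S k = true :: r) :
    TM2.stepAux (br k q0 q1 q2) v S = TM2.stepAux q2 (some true) (update S k r) := by
  simp [br, h]

theorem Run.sim {p : Prog} {S S' : St} {n : ℕ} (h : Run p S S' n) :
    ∀ (ι : Lbl p → Λ) (q : Stm Λ), (∀ l, M (ι l) = body p ι q l) → ∀ v, ∃ v',
      Steps M (TM2.stepAux (tr p ι q) v S) (TM2.stepAux q v' S') n := by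
  induction h with
  | skip S => intro ι q _ v; exact ⟨v, Steps.refl _ _⟩
  | push k b S =>
    intro ι q _ v
    exact ⟨v, (Steps.refl _ _).mono (Nat.zero_le _)⟩
  | seq _ _ ih1 ih2 =>
    intro ι q hM v
    obtain ⟨v1, h1⟩ := ih1 (fun l => ι (.inl l)) _ (fun l => hM (.inl l)) v
    obtain ⟨v2, h2⟩ := ih2 (fun l => ι (.inr l)) q (fun l => hM (.inr l)) v1
    exact ⟨v2, h1.trans h2⟩
  | cas0 hk _ ih =>
    intro ι q hM v
    obtain ⟨v1, h1⟩ := ih (fun l => ι (.inl l)) q (fun l => hM (.inl l)) none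
    refine ⟨v1, ?_⟩
    rw [tr, br_nil hk]
    exact h1.mono (Nat.le_succ _)
  | cas1 hk _ ih =>
    intro ι q hM v
    obtain ⟨v1, h1⟩ := ih (fun l => ι (.inr (.inl l))) q (fun l => hM (.inr (.inl l))) (some false)
    refine ⟨v1, ?_⟩
    rw [tr, br_false hk]
    exact h1.mono (Nat.le_succ _)
  | cas2 hk _ ih =>
    intro ι q hM v
    obtain ⟨v1, h1⟩ := ih (fun l => ι (.inr (.inr l))) q (fun l => hM (.inr (.inr l))) (some true)
    refine ⟨v1, ?_⟩
    rw [tr, br_true hk]
    exact h1.mono (Nat.le_succ _)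
  | @loop0 k p1 p2 S hk =>
    intro ι q hM v
    refine ⟨none, ?_⟩
    have h1 := Steps.one (M := M) (ι none) v S
    rw [hM none, body, br_nil hk] at h1
    exact h1
  | @loop1 k p1 p2 S S' S'' m n r hk _ _ ih1 ih2 =>
    intro ι q hM v
    have h1 := Steps.one (M := M) (ι none) v S
    rw [hM none, body, br_false hk] at h1
    obtain ⟨v1, h2⟩ := ih1 (fun l => ι (some (.inl l))) (.goto fun _ => ι none)
      (fun l => hM (some (.inl l))) (some false)
    obtain ⟨v2, h3⟩ := ih2 ι q hM v1
    exact ⟨v2, ((h1.trans h2).trans h3).mono (by omega)⟩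
  | @loop2 k p1 p2 S S' S'' m n r hk _ _ ih1 ih2 =>
    intro ι q hM v
    have h1 := Steps.one (M := M) (ι none) v S
    rw [hM none, body, br_true hk] at h1
    obtain ⟨v1, h2⟩ := ih1 (fun l => ι (some (.inr l))) (.goto fun _ => ι none)
      (fun l => hM (some (.inr l))) (some true)
    obtain ⟨v2, h3⟩ := ih2 ι q hM v1
    exact ⟨v2, ((h1.trans h2).trans h3).mono (by omega)⟩
  | mono _ hle ih =>
    intro ι q hM v
    obtain ⟨v1, h1⟩ := ih ι q hM v
    exact ⟨v1, h1.mono hle⟩

end Sim

/-- The final statement: reset the register and halt. -/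
def fin {Λ : Type} : Stm Λ := .load (fun _ => none) .halt

/-- The transition table of the compiled machine. -/
def table (p : Prog) : Option (Lbl p) → Stm (Option (Lbl p))
  | none => tr p some fin
  | some l => body p some fin l

/-- The compiled machine: input on stack `0`, output on stack `4`. -/
noncomputable def compile (p : Prog) : FinTM2 where
  K := Fin 5
  k₀ := 0
  k₁ := 4
  Γ _ := Bool
  Λ := Option (Lbl p)
  main := none
  ΛFin := by haveI := finite_lbl p; exact Fintype.ofFinite _
  σ := Option Bool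
  initialState := none
  m := table p

/-- The five stacks. -/
def mk (m a b c o : List Bool) : St := ![m, a, b, c, o]

theorem compile_outputs {p : Prog} {s t : List Bool} {n : ℕ}
    (h : Run p (mk s [] [] [] []) (mk [] [] [] [] t) n) :
    Nonempty (TM2OutputsInTime (compile p) s (some t) (n + 1)) := by
  obtain ⟨v', h1⟩ := h.sim (M := table p) some fin (fun _ => rfl) none
  have h0 := Steps.one (M := table p) none none (mk s [] [] [] [])
  obtain ⟨m, hm, h2⟩ := h0.trans h1
  have e1 : initList (compile p) s = ⟨some none, none, mk s [] [] [] []⟩ := by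
    unfold initList
    congr 1
    funext (k : Fin 5)
    fin_cases k <;> rfl
  have e2 : haltList (compile p) t = ⟨none, none, mk [] [] [] [] t⟩ := by
    unfold haltList
    congr 1
    funext (k : Fin 5)
    fin_cases k <;> rfl
  refine ⟨⟨⟨m, ?_⟩, by show m ≤ n + 1; omega⟩⟩
  rw [e1]
  show _ = some (haltList (compile p) t)
  rw [e2]
  exact h2

end Pool.Agent.MP_eb915b_lc
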