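import Pool.Agent.MP_eb915b_lc.Time

/-!
The final assembly: a `FinTM2` deciding Maximal Strip Recovery in fixed-parameter time.
-/

namespace Pool.Agent.MP_eb915b_lc

open Function Enc Turing

/-- A time-bounded Boolean function is computed by a `FinTM2` within a polynomial of the measure. -/
theorem TB.machine {α : Type} [Enc α] {μ : α → ℕ} {f : α → Bool} (h : TB μ f) :
    ∃ (M : TM2ComputableAux Bool Bool) (c : ℕ), (∀ j, Finite (M.tm.Γ j)) ∧
      ∀ a, Nonempty (TM2OutputsInTime M.tm ((enc a).ser.map M.inputAlphabet.symm)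
        (some ([f a].map M.outputAlphabet.symm)) ((μ a + 2) ^ c)) := by
  obtain ⟨_, p, t, ht, hp⟩ := h
  obtain ⟨c, hc⟩ := ht.add (Poly.const 21)
  refine ⟨⟨compile (.seq p pout), Equiv.refl _, Equiv.refl _⟩, c,
    fun _ => inferInstanceAs (Finite Bool), fun a => ?_⟩
  have h1 := hp a []
  simp only [List.append_nil] at h1
  have h2 : Run pout (mk (enc (f a)).ser [] [] [] []) (mk [] [] [] [] [f a]) 20 := by
    cases f a
    · exact run_pout_nil
    · exact run_pout_cons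
  have e : ((enc a).ser.map (Equiv.refl Bool).symm) = (enc a).ser := by simp
  have h4 := Run.seq h1 h2
  rw [← e] at h4
  obtain ⟨h3⟩ := compile_outputs h4
  exact ⟨⟨h3.toEvalsTo, h3.steps_le_m.trans (hc a)⟩⟩

theorem ser_list {α : Type} [Enc α] (l : List α) :
    (enc l).ser = l.flatMap (fun a => true :: (enc a).ser) ++ [false] := by
  induction l with
  | nil => rfl
  | cons a l ih => rw [enc_cons, T.ser, ih]; simp

theorem ser_bits (a : ℕ) : (enc a.bits).ser = codeNat a := by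
  rw [ser_list, codeNat]
  congr 2
  funext d
  cases d <;> rfl

theorem ser_seq (G : List ℕ) : (enc (G.map Nat.bits)).ser = codeSeq G := by
  rw [ser_list, codeSeq, List.flatMap_map]
  simp only [ser_bits]

theorem ser_inp (G₁ G₂ : List ℕ) (k : ℕ) :
    (enc ((G₁.map Nat.bits, G₂.map Nat.bits, k.bits) : Inp)).ser = codeInstance G₁ G₂ k := by
  rw [enc_pair, enc_pair, T.ser, T.ser, ser_seq, ser_seq, ser_bits, codeInstance]
  simp

theorem bits_inj : Injective Nat.bits := fun a b h => by rw [← val_bits a, h, val_bits]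

theorem idxOf_bits (G : List ℕ) (a : ℕ) : (G.map Nat.bits).idxOf a.bits = G.idxOf a := by
  induction G with
  | nil => rfl
  | cons b G ih =>
    rw [List.map_cons, List.idxOf_cons, List.idxOf_cons, ih]
    congr 1
    rw [Bool.eq_iff_iff]
    simp [bits_inj.eq_iff]

theorem alg_iff {G₁ G₂ : List ℕ} (h₁ : G₁.Nodup) (hp : G₁.Perm G₂) (k : ℕ) :
    alg (G₁.map Nat.bits, G₂.map Nat.bits, k.bits) = true ↔ MSR G₁ G₂ k := by
  have e : ptsOf (G₁.map Nat.bits, G₂.map Nat.bits, k.bits) = G₁.map (ptOf G₁ G₂) := by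
    simp only [ptsOf, List.map_map]
    refine List.map_congr_left fun a _ => ?_
    simp only [comp_apply, idxOf_bits, ptOf]
  rw [alg, e, val_bits, msr_iff_geo h₁ hp]
  refine decideWith_iff ?_ ?_ k
  · rw [List.pairwise_map]; exact pairwise_idxOf h₁
  · intro p hp'
    obtain ⟨a, ha, rfl⟩ := List.mem_map.1 hp'
    rw [List.length_map]
    refine ⟨List.idxOf_lt_length_of_mem ha, ?_⟩
    rw [hp.length_eq]
    exact List.idxOf_lt_length_of_mem (hp.subset ha)

theorem main_bound (N k c : ℕ) :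
    (N + bigF k + 2) ^ c ≤ (k + 2) ^ (26 * c * (k + 1)) * (N + 1) ^ (26 * c) := by
  have h1 : bigF k + 2 ≤ (k + 2) ^ (26 * (k + 1)) := by
    unfold bigF
    have a1 : 1 ≤ (k + 2) ^ (24 * (k + 1)) := Nat.one_le_pow _ _ (by omega)
    have a2 : 2 ^ 2 ≤ (k + 2) ^ (2 * (k + 1)) :=
      (Nat.pow_le_pow_left (by omega) 2).trans (Nat.pow_le_pow_right (by omega) (by omega))
    have a3 : (k + 2) ^ (26 * (k + 1)) = (k + 2) ^ (24 * (k + 1)) * (k + 2) ^ (2 * (k + 1)) := by
      rw [← pow_add]; congr 1; ring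
    rw [a3]
    nlinarith
  have h2 : N + bigF k + 2 ≤ (k + 2) ^ (26 * (k + 1)) * (N + 1) := by nlinarith
  calc _ ≤ ((k + 2) ^ (26 * (k + 1)) * (N + 1)) ^ c := Nat.pow_le_pow_left h2 c
    _ = (k + 2) ^ (26 * c * (k + 1)) * (N + 1) ^ c := by
      rw [mul_pow, ← pow_mul]; congr 2; ring
    _ ≤ _ := Nat.mul_le_mul_left _ (Nat.pow_le_pow_right (by omega) (by omega))

theorem computable_bound (c : ℕ) : Computable (fun k : ℕ => (k + 2) ^ (c * (k + 1))) := by
  have hpow : Primrec₂ ((· ^ ·) : ℕ → ℕ → ℕ) := Primrec₂.unpaired'.1 Nat.Primrec.pow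
  exact (hpow.comp (Primrec.nat_add.comp Primrec.id (Primrec.const 2))
    (Primrec.nat_mul.comp (Primrec.const c)
      (Primrec.nat_add.comp Primrec.id (Primrec.const 1)))).to_comp

theorem msr_fpt :
    ∃ (M : TM2ComputableAux Bool Bool) (f : ℕ → ℕ) (c : ℕ),
      (∀ j, Finite (M.tm.Γ j)) ∧ Computable f ∧ (∀ k, f k ≤ (k + 2) ^ (c * (k + 1))) ∧
      ∀ (G₁ G₂ : List ℕ) (k : ℕ), G₁.Nodup → G₁.Perm G₂ →
        ∃ b : Bool, (b = true ↔ MSR G₁ G₂ k) ∧
          Nonempty (TM2OutputsInTime M.tm ((codeInstance G₁ G₂ k).map M.inputAlphabet.symm)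
            (some ([b].map M.outputAlphabet.symm))
            (f k * ((codeInstance G₁ G₂ k).length + 1) ^ c)) := by
  obtain ⟨M, c, hfin, hM⟩ := tb_alg.machine
  refine ⟨M, fun k => (k + 2) ^ (26 * c * (k + 1)), 26 * c, hfin, computable_bound _,
    fun _ => le_rfl, fun G₁ G₂ k h₁ hp => ⟨_, alg_iff h₁ hp k, ?_⟩⟩
  obtain ⟨h⟩ := hM (G₁.map Nat.bits, G₂.map Nat.bits, k.bits)
  rw [ser_inp] at h
  refine ⟨⟨h.toEvalsTo, h.steps_le_m.trans ?_⟩⟩
  have e : meas (G₁.map Nat.bits, G₂.map Nat.bits, k.bits) =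
      (codeInstance G₁ G₂ k).length + bigF k := by
    rw [meas, val_bits, ← ser_inp, T.length_ser]; rfl
  rw [e]
  exact main_bound _ _ _

end Pool.Agent.MP_eb915b_lc
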