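import Pool.Agent.MP_eb915b_lc.Lib
import Pool.Agent.MP_eb915b_lc.Alg

/-!
Running time of the algorithm.
-/

namespace Pool.Agent.MP_eb915b_lc

open Function Enc

variable {α β : Type} [Enc α] [Enc β]

@[fun_prop] theorem PT.pwB {l : α → List β} {r : α → β → β → Bool} (hl : PT l)
    (hr : PT (fun p : α × β × β => r p.1 p.2.1 p.2.2)) : PT (fun a => pwB (r a) (l a)) := by
  have h1 : PT (fun p : (α × β × List β × Bool) × β => r p.1.1 p.1.2.1 p.2) :=
    PT.comp (g := fun p : (α × β × List β × Bool) × β => (p.1.1, p.1.2.1, p.2)) hr (by fun_prop)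
  have h2 := PT.foldr_add
    (g := fun a x (s : List β × Bool) => (x :: s.1, s.2 && s.1.all (r a x)))
    (s := fun _ => ([], true)) (by fun_prop) hl (by fun_prop)
    (PT.sz_snd.add (Poly.const 3)) (fun a x s => by
      have h3 := sz_bool (s.2 && s.1.all (r a x))
      have h4 := sz_pos s.2
      rw [sz_prod s]
      simp only [sz_pair, sz_cons]
      omega)
  exact PT.snd h2

@[fun_prop] theorem PT.sepB {f g : α → List Pt} (hf : PT f) (hg : PT g) :
    PT (fun a => sepB (f a) (g a)) := by
  unfold Pool.Agent.MP_eb915b_lc.sepB; fun_prop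

@[fun_prop] theorem PT.chk {f : α → List Pt} {k : α → ℕ} {P : α → List (List Pt)}
    (hf : PT f) (hk : PT k) (hP : PT P) : PT (fun a => chk (f a) (k a) (P a)) := by
  unfold Pool.Agent.MP_eb915b_lc.chk; fun_prop

@[fun_prop] theorem PT.domB {f g : α → Pt} (hf : PT f) (hg : PT g) :
    PT (fun a => domB (f a) (g a)) := by
  unfold Pool.Agent.MP_eb915b_lc.domB; fun_prop

@[fun_prop] theorem PT.levStep {f g : α → List Pt} (hf : PT f) (hg : PT g) :
    PT (fun a => levStep (f a) (g a)) := by
  unfold Pool.Agent.MP_eb915b_lc.levStep; fun_prop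

@[fun_prop] theorem PT.lev {f : α → List Pt} {i : α → ℕ} (hf : PT f) (hi : PT i) :
    PT (fun a => lev (f a) (i a)) :=
  TB.iterate (f := fun a => Pool.Agent.MP_eb915b_lc.levStep (f a)) (by fun_prop) hi hf hf.size
    fun a j _ => sz_sublist (lev_sublist (f a) j)

@[fun_prop] theorem PT.chain {f : α → List Pt} {i : α → ℕ} (hf : PT f) (hi : PT i) :
    PT (fun a => chain (f a) (i a)) := by
  unfold Pool.Agent.MP_eb915b_lc.chain; fun_prop

@[fun_prop] theorem PT.cands {f : α → List Pt} {al : α → List Vr} {v : α → Vr}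
    (hf : PT f) (hal : PT al) (hv : PT v) : PT (fun a => cands (f a) (al a) (v a)) := by
  unfold Pool.Agent.MP_eb915b_lc.cands; fun_prop

@[fun_prop] theorem PT.upd {f : α → List Pt} {al : α → List Vr} {v : α → Vr}
    (hf : PT f) (hal : PT al) (hv : PT v) : PT (fun a => upd (f a) (al a) (v a)) := by
  unfold Pool.Agent.MP_eb915b_lc.upd; fun_prop

@[fun_prop] theorem PT.step {f : α → List Pt} {st : α → List (List Vr)}
    (hf : PT f) (hst : PT st) : PT (fun a => step (f a) (st a)) := by
  unfold Pool.Agent.MP_eb915b_lc.step; fun_prop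

@[fun_prop] theorem PT.start {f : α → List Pt} {Q : α → List (List Rc)}
    (hf : PT f) (hQ : PT Q) : PT (fun a => start (f a) (Q a)) := by
  unfold Pool.Agent.MP_eb915b_lc.start; fun_prop

theorem step_inv {pts : List Pt} {D : ℕ} (hD : sz pts ≤ D) (st : List (List Vr))
    (h : st.length ≤ D ∧ ∀ B ∈ st, B.length ≤ D ∧ ∀ v ∈ B, sz v.1 ≤ D ∧ sz v.2 ≤ D) :
    (step pts st).length ≤ D ∧
      ∀ B ∈ step pts st, B.length ≤ D ∧ ∀ v ∈ B, sz v.1 ≤ D ∧ sz v.2 ≤ D := by
  refine ⟨by simpa [step] using h.1, fun B hB => ?_⟩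
  obtain ⟨C, hC, rfl⟩ := List.mem_map.1 hB
  refine ⟨by simpa using (h.2 C hC).1, fun v hv => ?_⟩
  obtain ⟨u, hu, rfl⟩ := List.mem_map.1 hv
  refine ⟨((h.2 C hC).2 u hu).1, ?_⟩
  show sz ((cands pts st.flatten u).headD u.2) ≤ D
  have hsub : (cands pts st.flatten u).Sublist pts :=
    List.filter_sublist.trans (chain_sublist _ _)
  rcases e : cands pts st.flatten u with _ | ⟨p, l⟩
  · exact ((h.2 C hC).2 u hu).2
  · exact (sz_mem (hsub.subset (by rw [e]; simp))).trans hD

theorem sz_step_iter (pts : List Pt) (st : List (List Vr)) (i : ℕ) :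
    sz ((step pts)^[i] st) ≤ (sz pts + sz st) * ((sz pts + sz st) *
      (2 * (sz pts + sz st) + 2) + 2) + 1 := by
  set D := sz pts + sz st with hD
  have key : ((step pts)^[i] st).length ≤ D ∧
      ∀ B ∈ (step pts)^[i] st, B.length ≤ D ∧ ∀ v ∈ B, sz v.1 ≤ D ∧ sz v.2 ≤ D := by
    induction i with
    | zero =>
      refine ⟨by have := length_le_sz st; simp only [iterate_zero, id]; omega, fun B hB => ?_⟩
      have h1 := sz_mem hB
      have h2 := length_le_sz B
      simp only [iterate_zero, id] at h1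
      refine ⟨by omega, fun v hv => ?_⟩
      have h3 := sz_mem hv
      rw [sz_prod] at h3
      omega
    | succ i ih => rw [iterate_succ_apply']; exact step_inv (by omega) _ ih
  have h1 := sz_le_of_forall (l := (step pts)^[i] st) (B := D * (2 * D + 2) + 1) (fun B hB => by
    have h2 := sz_le_of_forall (l := B) (B := 2 * D + 1) (fun v hv => by
      have := (key.2 B hB).2 v hv
      rw [sz_prod]; omega)
    have h3 := Nat.mul_le_mul_right (2 * D + 2) (key.2 B hB).1
    exact h2.trans (Nat.add_le_add_right h3 1))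
  have h3 := Nat.mul_le_mul_right (D * (2 * D + 2) + 2) key.1
  exact h1.trans (Nat.add_le_add_right h3 1)

@[fun_prop] theorem PT.solve {f : α → List Pt} {Q : α → List (List Rc)}
    (hf : PT f) (hQ : PT Q) : PT (fun a => solve (f a) (Q a)) := by
  have h0 : PT (fun a => Pool.Agent.MP_eb915b_lc.start (f a) (Q a)) := by fun_prop
  have hD := hf.size.add h0.size
  have h1 : PT (fun a => (Pool.Agent.MP_eb915b_lc.step (f a))^[(Q a).flatten.length *
      (f a).length + 1 + 1] (Pool.Agent.MP_eb915b_lc.start (f a) (Q a))) :=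
    TB.iterate (f := fun a => Pool.Agent.MP_eb915b_lc.step (f a)) (by fun_prop)
      (show PT _ by fun_prop) h0
      ((hD.mul ((hD.mul (((Poly.const 2).mul hD).add (Poly.const 2))).add (Poly.const 2))).add
        (Poly.const 1)) fun a i _ => sz_step_iter _ _ i
  unfold Pool.Agent.MP_eb915b_lc.solve
  exact PT.map h1 (by fun_prop)

@[fun_prop] theorem PT.menu {M : α → ℕ} (hM : PT M) : PT (fun a => menu (M a)) := by
  unfold Pool.Agent.MP_eb915b_lc.menu; fun_prop

@[fun_prop] theorem PT.genStep {mn : α → List Rc} {L : α → List (List (List Rc))}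
    (hm : PT mn) (hL : PT L) : PT (fun a => genStep (mn a) (L a)) := by
  unfold Pool.Agent.MP_eb915b_lc.genStep; fun_prop

@[fun_prop] theorem PT.decideWith {f : α → List Pt} {k : α → ℕ} {L : α → List (List (List Rc))}
    (hf : PT f) (hk : PT k) (hL : PT L) : PT (fun a => decideWith (f a) (k a) (L a)) := by
  unfold Pool.Agent.MP_eb915b_lc.decideWith; fun_prop

theorem gen_bound (mn : List Rc) (t : ℕ) :
    1 ≤ (gen mn t).length ∧ (gen mn t).length ≤ (mn.length + 2) ^ t ∧
      ∀ Q ∈ gen mn t, sz Q ≤ t * (sz mn + 3) + 1 := by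
  induction t with
  | zero => simp [gen]
  | succ t ih =>
    obtain ⟨h1, h2, h3⟩ := ih
    have e : gen mn (t + 1) = genStep mn (gen mn t) := iterate_succ_apply' _ _ _
    rw [e]
    refine ⟨by simp [genStep], ?_, ?_⟩
    · have : (genStep mn (gen mn t)).length = (gen mn t).length * (mn.length + 1) + 1 := by
        simp [genStep, List.length_flatMap]
      rw [this, pow_succ]
      nlinarith
    · intro Q hQ
      rcases List.mem_cons.1 hQ with rfl | hQ
      · simp
      · obtain ⟨R, hR, hQ⟩ := List.mem_flatMap.1 hQ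
        have h4 := h3 R hR
        rcases List.mem_cons.1 hQ with rfl | hQ
        · simp only [sz_cons, sz_nil]; nlinarith
        · obtain ⟨r, hr, rfl⟩ := List.mem_map.1 hQ
          have h5 := sz_mem hr
          cases R with
          | nil => simp only [sz_cons, sz_nil, List.headD_nil, List.tail_nil]; nlinarith
          | cons B R =>
            simp only [sz_cons, List.headD_cons, List.tail_cons] at h4 ⊢; nlinarith

theorem length_menu (M : ℕ) : (menu M).length = M ^ 3 := by
  simp [menu, List.length_flatMap]; ring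

/-- Value of a little-endian bit string. -/
def val (l : List Bool) : ℕ := l.foldr (fun b s => bif b then s + s + 1 else s + s) 0

theorem val_bits (n : ℕ) : val n.bits = n := by
  induction n using Nat.binaryRec' with
  | zero => simp [val]
  | bit b n h ih =>
    rw [Nat.bits_append_bit _ _ h]
    show (bif b then val n.bits + val n.bits + 1 else val n.bits + val n.bits) = _
    rw [ih]
    cases b <;> simp [Nat.bit] <;> omega

theorem val_suffix (l m : List Bool) : val m ≤ val (l ++ m) := by
  induction l with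
  | nil => exact le_rfl
  | cons b l ih =>
    show _ ≤ (bif b then val (l ++ m) + val (l ++ m) + 1 else val (l ++ m) + val (l ++ m))
    cases b <;> simp only [cond] <;> omega

/-- Parsed inputs. -/
abbrev Inp := List (List Bool) × List (List Bool) × List Bool

def ptsOf (x : Inp) : List Pt := x.1.map fun a => (x.1.idxOf a, x.2.1.idxOf a)

/-- The whole algorithm. -/
def alg (x : Inp) : Bool :=
  decideWith (ptsOf x) (val x.2.2) (gen (menu (2 * val x.2.2 + 2)) (4 * val x.2.2 + 2))

/-- The parameter dependence. -/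
@[irreducible] def bigF (k : ℕ) : ℕ := (k + 2) ^ (24 * (k + 1))

theorem le_bigF (k : ℕ) : k ≤ bigF k := by
  unfold bigF
  exact (Nat.le_add_right _ 2).trans (Nat.le_self_pow (by omega) _)

theorem length_gen_le (k i : ℕ) (hi : i ≤ 4 * k + 2) :
    (gen (menu (2 * k + 2)) i).length ≤ bigF k := by
  obtain ⟨_, a2, _⟩ := gen_bound (menu (2 * k + 2)) i
  rw [length_menu] at a2
  have b1 : (2 * k + 2) ^ 3 + 2 ≤ (k + 2) ^ 6 := by
    have c1 : (2 * k + 2) ^ 3 + 2 ≤ 8 * (k + 2) ^ 3 := by ring_nf; omega
    have c2 : 2 ^ 3 ≤ (k + 2) ^ 3 := Nat.pow_le_pow_left (by omega) 3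
    calc _ ≤ 8 * (k + 2) ^ 3 := c1
      _ ≤ (k + 2) ^ 3 * (k + 2) ^ 3 := Nat.mul_le_mul_right _ c2
      _ = _ := by ring
  unfold bigF
  calc _ ≤ ((2 * k + 2) ^ 3 + 2) ^ i := a2
    _ ≤ ((k + 2) ^ 6) ^ i := Nat.pow_le_pow_left b1 i
    _ = (k + 2) ^ (6 * i) := by rw [pow_mul]
    _ ≤ _ := Nat.pow_le_pow_right (by omega) (by omega)

theorem sz_gen_le (k i : ℕ) (hi : i ≤ 4 * k + 2) :
    sz (gen (menu (2 * k + 2)) i) ≤
      bigF k * ((4 * k + 2) * (sz (menu (2 * k + 2)) + 3) + 1 + 1) + 1 := by
  obtain ⟨_, _, a3⟩ := gen_bound (menu (2 * k + 2)) i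
  have a4 := sz_le_of_forall (l := gen (menu (2 * k + 2)) i)
    (B := (4 * k + 2) * (sz (menu (2 * k + 2)) + 3) + 1) (fun Q hQ =>
      (a3 Q hQ).trans (Nat.add_le_add_right (Nat.mul_le_mul_right _ hi) _))
  exact a4.trans (Nat.add_le_add_right (Nat.mul_le_mul_right _ (length_gen_le k i hi)) _)

theorem tb_gen : TB (fun k : ℕ => sz k + bigF k)
    (fun k : ℕ => gen (menu (2 * k + 2)) (4 * k + 2)) := by
  have g0 : Poly (fun k : ℕ => sz k + bigF k) sz := Poly.self.mono fun x => Nat.le_add_right _ _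
  have gF : Poly (fun k : ℕ => sz k + bigF k) bigF := Poly.self.mono fun x => Nat.le_add_left _ _
  have gk : Poly (fun k : ℕ => sz k + bigF k) (fun k => k) := gF.mono le_bigF
  have hm : PT (fun k : ℕ => menu (2 * k + 2)) := by fun_prop
  have gn : PT (fun k : ℕ => 4 * k + 2) := by fun_prop
  have hs : PT (fun p : ℕ × List (List (List Rc)) => genStep (menu (2 * p.1 + 2)) p.2) := by
    fun_prop
  exact TB.iterate (f := fun k : ℕ => genStep (menu (2 * k + 2))) hs
    (TB.of_pt gn g0) (TB.of_pt (PT.const _) g0)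
    (B := fun k => bigF k * ((4 * k + 2) * (sz (menu (2 * k + 2)) + 3) + 1 + 1) + 1)
    ((gF.mul ((((((Poly.const 4).mul gk).add (Poly.const 2)).mul
      ((hm.size.trans g0).add (Poly.const 3))).add (Poly.const 1)).add (Poly.const 1))).add
      (Poly.const 1)) fun k i hi => sz_gen_le k i hi

/-- The time measure. -/
def meas (x : Inp) : ℕ := sz x + bigF (val x.2.2)

theorem meas_sz : Poly meas (sz : Inp → ℕ) := Poly.self.mono fun _ => Nat.le_add_right _ _

theorem meas_F : Poly meas (fun x => bigF (val x.2.2)) :=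
  Poly.self.mono fun _ => Nat.le_add_left _ _

theorem tb_val : TB meas (fun x => val x.2.2) := by
  have hk : Poly meas (fun x => val x.2.2) := meas_F.mono fun x => le_bigF _
  have hg : PT (fun p : Inp × ℕ × Bool =>
      bif p.2.2 then p.2.1 + p.2.1 + 1 else p.2.1 + p.2.1) := by fun_prop
  have hl : PT (fun x : Inp => x.2.2.reverse) := by fun_prop
  refine (TB.foldl (g := fun _ (s : ℕ) (b : Bool) => bif b then s + s + 1 else s + s)
    (l := fun x : Inp => x.2.2.reverse) (s := fun _ => 0) hg
    (TB.of_pt hl meas_sz) (TB.of_pt (PT.const _) meas_sz)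
    (((Poly.const 2).mul hk).add (Poly.const 1)) fun x i => ?_).congr fun x => ?_
  · have e : (x.2.2.reverse.take i).foldl
        (fun (s : ℕ) (b : Bool) => bif b then s + s + 1 else s + s) 0 =
        val (x.2.2.reverse.take i).reverse := by rw [val, List.foldr_reverse]
    rw [e, sz_nat]
    have h2 := val_suffix (x.2.2.reverse.drop i).reverse (x.2.2.reverse.take i).reverse
    rw [← List.reverse_append, List.take_append_drop, List.reverse_reverse] at h2
    omega
  · rw [val, List.foldl_reverse]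

theorem pt_final : PT (fun p : (Inp × ℕ) × List (List (List Rc)) =>
    decideWith (ptsOf p.1.1) p.1.2 p.2) := by
  have h : PT (fun p : (Inp × ℕ) × List (List (List Rc)) => ptsOf p.1.1) := by
    unfold ptsOf; fun_prop
  exact PT.decideWith h (by fun_prop) (by fun_prop)

theorem tb_alg : TB meas alg := by
  have h2 : TB meas (fun x => (x, val x.2.2)) := (TB.of_pt PT.id meas_sz).pair tb_val
  have h4 : TB meas (fun x => gen (menu (2 * val x.2.2 + 2)) (4 * val x.2.2 + 2)) :=
    TB.comp tb_gen tb_val (tb_val.size.add meas_F)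
  exact ((h2.pair h4).comp_pt pt_final).congr fun _ => rfl

end Pool.Agent.MP_eb915b_lc
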