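import Pool.Agent.MP_eb915b_lc.Machine

/-!
Binary trees serialised on the main stack, and the basic program combinators acting on them.
-/

namespace Pool.Agent.MP_eb915b_lc

open Function

/-- Binary trees: the universal data type. -/
inductive T
  | nil
  | cons (a b : T)

/-- Serialisation of a tree. -/
def T.ser : T → List Bool
  | .nil => [false]
  | .cons a b => true :: (a.ser ++ b.ser)

/-- Size of a tree: the length of its serialisation. -/
def T.size : T → ℕ
  | .nil => 1
  | .cons a b => a.size + b.size + 1

@[simp] theorem T.length_ser : ∀ t : T, t.ser.length = t.size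
  | .nil => rfl
  | .cons a b => by simp [T.ser, T.size, T.length_ser a, T.length_ser b]

theorem T.size_pos : ∀ t : T, 1 ≤ t.size
  | .nil => le_rfl
  | .cons _ _ => by simp [T.size]

section mk
variable (m a b c o x : List Bool)
@[simp] theorem mk_0 : mk m a b c o 0 = m := rfl
@[simp] theorem mk_1 : mk m a b c o 1 = a := rfl
@[simp] theorem mk_2 : mk m a b c o 2 = b := rfl
@[simp] theorem mk_3 : mk m a b c o 3 = c := rfl
@[simp] theorem mk_4 : mk m a b c o 4 = o := rfl
@[simp] theorem upd_0 : update (mk m a b c o) 0 x = mk x a b c o := by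
  funext k; fin_cases k <;> rfl
@[simp] theorem upd_1 : update (mk m a b c o) 1 x = mk m x b c o := by
  funext k; fin_cases k <;> rfl
@[simp] theorem upd_2 : update (mk m a b c o) 2 x = mk m a x c o := by
  funext k; fin_cases k <;> rfl
@[simp] theorem upd_3 : update (mk m a b c o) 3 x = mk m a b x o := by
  funext k; fin_cases k <;> rfl
@[simp] theorem upd_4 : update (mk m a b c o) 4 x = mk m a b c x := by
  funext k; fin_cases k <;> rfl
end mk

theorem Run.push0 (m a b c o : List Bool) (x : Bool) :
    Run (.push 0 x) (mk m a b c o) (mk (x :: m) a b c o) 1 := by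
  simpa using Run.push 0 x (mk m a b c o)
theorem Run.push1 (m a b c o : List Bool) (x : Bool) :
    Run (.push 1 x) (mk m a b c o) (mk m (x :: a) b c o) 1 := by
  simpa using Run.push 1 x (mk m a b c o)
theorem Run.push2 (m a b c o : List Bool) (x : Bool) :
    Run (.push 2 x) (mk m a b c o) (mk m a (x :: b) c o) 1 := by
  simpa using Run.push 2 x (mk m a b c o)
theorem Run.push3 (m a b c o : List Bool) (x : Bool) :
    Run (.push 3 x) (mk m a b c o) (mk m a b (x :: c) o) 1 := by
  simpa using Run.push 3 x (mk m a b c o)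
theorem Run.push4 (m a b c o : List Bool) (x : Bool) :
    Run (.push 4 x) (mk m a b c o) (mk m a b c (x :: o)) 1 := by
  simpa using Run.push 4 x (mk m a b c o)

/-- Emit a symbol to the auxiliary stacks selected by the two flags. -/
def emit (u w x : Bool) : Prog :=
  .seq (if u then .push 1 x else .skip) (if w then .push 2 x else .skip)

theorem run_emit (u w x : Bool) (m a b c o : List Bool) :
    Run (emit u w x) (mk m a b c o)
      (mk m ((if u then [x] else []) ++ a) ((if w then [x] else []) ++ b) c o) 2 := by
  cases u <;> cases w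
  · exact ((Run.skip _).seq (Run.skip _)).mono (by omega)
  · exact ((Run.skip _).seq (Run.push2 _ _ _ _ _ _)).mono (by omega)
  · exact ((Run.push1 _ _ _ _ _ _).seq (Run.skip _)).mono (by omega)
  · exact ((Run.push1 _ _ _ _ _ _).seq (Run.push2 _ _ _ _ _ _)).mono (by omega)

def scanBody (u w : Bool) : Prog :=
  .cas 0 .skip (emit u w false) (.seq (emit u w true) (.seq (.push 3 false) (.push 3 false)))

def scanLoop (u w : Bool) : Prog := .loop 3 (scanBody u w) (scanBody u w)

theorem run_scanLoop (u w : Bool) : ∀ (t : T) (R a b c o : List Bool) (S : St) (n : ℕ),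
    Run (scanLoop u w) (mk R ((if u then t.ser.reverse else []) ++ a)
      ((if w then t.ser.reverse else []) ++ b) c o) S n →
    Run (scanLoop u w) (mk (t.ser ++ R) a b (false :: c) o) S (n + 6 * t.size)
  | .nil, R, a, b, c, o, S, n, h => by
    have h1 : Run (scanBody u w) (mk (false :: R) a b c o) _ _ :=
      Run.cas1 (r := R) rfl (by simpa using run_emit u w false R a b c o)
    have h2 := Run.loop1 (k := 3) (p1 := scanBody u w) (p2 := scanBody u w)
      (S := mk (false :: R) a b (false :: c) o) (r := c) rfl (by simpa using h1)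
      (by simpa [T.ser, scanLoop] using h)
    exact h2.mono (by simp [T.size]; omega)
  | .cons s t, R, a, b, c, o, S, n, h => by
    have h1 : Run (scanBody u w) (mk (true :: (s.ser ++ (t.ser ++ R))) a b c o) _ _ :=
      Run.cas2 (r := s.ser ++ (t.ser ++ R)) rfl (by
        simpa using (run_emit u w true (s.ser ++ (t.ser ++ R)) a b c o).seq
          ((Run.push3 _ _ _ _ _ false).seq (Run.push3 _ _ _ _ _ false)))
    have h3 := run_scanLoop u w t R
      ((if u then s.ser.reverse else []) ++ ((if u then [true] else []) ++ a))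
      ((if w then s.ser.reverse else []) ++ ((if w then [true] else []) ++ b)) c o S n
      (by cases u <;> cases w <;> simpa [T.ser] using h)
    have h4 := run_scanLoop u w s (t.ser ++ R) _ _ (false :: c) o S _ h3
    have h2 := Run.loop1 (k := 3) (p1 := scanBody u w) (p2 := scanBody u w)
      (S := mk (true :: (s.ser ++ (t.ser ++ R))) a b (false :: c) o) (r := c) rfl
      (by simpa using h1) h4
    have e : (T.cons s t).ser ++ R = true :: (s.ser ++ (t.ser ++ R)) := by simp [T.ser]
    rw [e]
    exact h2.mono (by simp [T.size]; omega)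

/-- Move the top tree of the main stack (reversed) to the selected auxiliary stacks. -/
def scan (u w : Bool) : Prog := .seq (.push 3 false) (scanLoop u w)

theorem run_scan (u w : Bool) (t : T) (R a b o : List Bool) :
    Run (scan u w) (mk (t.ser ++ R) a b [] o)
      (mk R ((if u then t.ser.reverse else []) ++ a)
        ((if w then t.ser.reverse else []) ++ b) [] o) (6 * t.size + 2) := by
  have h := run_scanLoop u w t R a b [] o _ 1 (Run.loop0 rfl)
  exact ((Run.push3 _ _ _ _ _ false).seq h).mono (by omega)

def unload (k : Fin 5) : Prog := .loop k (.push 0 false) (.push 0 true)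

theorem run_unload1 : ∀ (a m b c o : List Bool),
    Run (unload 1) (mk m a b c o) (mk (a.reverse ++ m) [] b c o) (2 * a.length + 1)
  | [], m, b, c, o => Run.loop0 rfl
  | false :: a, m, b, c, o => by
    have h := Run.loop1 (k := 1) (p1 := .push 0 false) (p2 := .push 0 true)
      (S := mk m (false :: a) b c o) (r := a) rfl
      (by simpa using Run.push0 m a b c o false) (run_unload1 a (false :: m) b c o)
    simpa [unload] using h.mono (n := 2 * (a.length + 1) + 1) (by omega)
  | true :: a, m, b, c, o => by
    have h := Run.loop2 (k := 1) (p1 := .push 0 false) (p2 := .push 0 true)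
      (S := mk m (true :: a) b c o) (r := a) rfl
      (by simpa using Run.push0 m a b c o true) (run_unload1 a (true :: m) b c o)
    simpa [unload] using h.mono (n := 2 * (a.length + 1) + 1) (by omega)

theorem run_unload2 : ∀ (b m a c o : List Bool),
    Run (unload 2) (mk m a b c o) (mk (b.reverse ++ m) a [] c o) (2 * b.length + 1)
  | [], m, a, c, o => Run.loop0 rfl
  | false :: b, m, a, c, o => by
    have h := Run.loop1 (k := 2) (p1 := .push 0 false) (p2 := .push 0 true)
      (S := mk m a (false :: b) c o) (r := b) rfl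
      (by simpa using Run.push0 m a b c o false) (run_unload2 b (false :: m) a c o)
    simpa [unload] using h.mono (n := 2 * (b.length + 1) + 1) (by omega)
  | true :: b, m, a, c, o => by
    have h := Run.loop2 (k := 2) (p1 := .push 0 false) (p2 := .push 0 true)
      (S := mk m a (true :: b) c o) (r := b) rfl
      (by simpa using Run.push0 m a b c o true) (run_unload2 b (true :: m) a c o)
    simpa [unload] using h.mono (n := 2 * (b.length + 1) + 1) (by omega)

/-- `RunM p m m' n`: `p` changes the main stack from `m` to `m'`, the others being empty. -/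
def RunM (p : Prog) (m m' : List Bool) (n : ℕ) : Prop :=
  Run p (mk m [] [] [] []) (mk m' [] [] [] []) n

theorem RunM.seq {p q : Prog} {m m' m'' : List Bool} {a b : ℕ} (h : RunM p m m' a)
    (h' : RunM q m' m'' b) : RunM (.seq p q) m m'' (a + b) := Run.seq h h'

theorem RunM.mono {p : Prog} {m m' : List Bool} {a b : ℕ} (h : RunM p m m' a) (hle : a ≤ b) :
    RunM p m m' b := Run.mono h hle

theorem RunM.push (m : List Bool) (x : Bool) : RunM (.push 0 x) m (x :: m) 1 := Run.push0 _ _ _ _ _ _

theorem RunM.cas1 {p0 p1 p2 : Prog} {m m' : List Bool} {n : ℕ} (h : RunM p1 m m' n) :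
    RunM (.cas 0 p0 p1 p2) (false :: m) m' (n + 1) :=
  Run.cas1 (r := m) rfl (by simpa [RunM] using h)

theorem RunM.cas2 {p0 p1 p2 : Prog} {m m' : List Bool} {n : ℕ} (h : RunM p2 m m' n) :
    RunM (.cas 0 p0 p1 p2) (true :: m) m' (n + 1) :=
  Run.cas2 (r := m) rfl (by simpa [RunM] using h)

def pdrop : Prog := scan false false
def pdup : Prog := .seq (scan true true) (.seq (unload 1) (unload 2))
def pswap : Prog := .seq (scan true false) (.seq (scan false true) (.seq (unload 1) (unload 2)))

theorem run_pdrop (t : T) (R : List Bool) : RunM pdrop (t.ser ++ R) R (6 * t.size + 2) := by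
  simpa [RunM, pdrop] using run_scan false false t R [] [] []

theorem run_pdup (t : T) (R : List Bool) :
    RunM pdup (t.ser ++ R) (t.ser ++ (t.ser ++ R)) (10 * t.size + 4) := by
  have h := (run_scan true true t R [] [] []).seq
    ((run_unload1 _ _ _ _ _).seq (run_unload2 _ _ _ _ _))
  simp only [if_true, List.append_nil, List.reverse_reverse, List.length_reverse,
    T.length_ser] at h
  exact h.mono (by omega)

theorem run_pswap (s t : T) (R : List Bool) :
    RunM pswap (s.ser ++ (t.ser ++ R)) (t.ser ++ (s.ser ++ R)) (8 * s.size + 8 * t.size + 6) := by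
  have h := (run_scan true false s (t.ser ++ R) [] [] []).seq
    ((run_scan false true t R _ _ []).seq
    ((run_unload1 _ _ _ _ _).seq (run_unload2 _ _ _ _ _)))
  simp only [if_true, List.append_nil, List.reverse_reverse, List.length_reverse,
    T.length_ser, Bool.false_eq_true, if_false, List.nil_append] at h
  exact h.mono (by omega)

/-- `Comp p x y n`: `p` replaces the top tree `x` by `y` at cost at most `n`. -/
def Comp (p : Prog) (x y : T) (n : ℕ) : Prop :=
  ∀ R : List Bool, RunM p (x.ser ++ R) (y.ser ++ R) n

theorem Comp.mono {p : Prog} {x y : T} {a b : ℕ} (h : Comp p x y a) (hle : a ≤ b) :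
    Comp p x y b := fun R => (h R).mono hle

theorem Comp.size_le {p : Prog} {x y : T} {n : ℕ} (h : Comp p x y n) : y.size ≤ x.size + n := by
  simpa using Run.length_le (h []) 0

theorem Comp.skip (x : T) : Comp .skip x x 0 := fun _ => Run.skip _

theorem Comp.seq {p q : Prog} {x y z : T} {a b : ℕ} (h : Comp p x y a) (h' : Comp q y z b) :
    Comp (.seq p q) x z (a + b) := fun R => (h R).seq (h' R)

def pnil : Prog := .seq pdrop (.push 0 false)

theorem Comp.nil (x : T) : Comp pnil x .nil (6 * x.size + 3) := fun R =>
  (run_pdrop x R).seq (RunM.push R false)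

def pfst : Prog := .cas 0 .skip (.push 0 false) (.seq pswap pdrop)
def psnd : Prog := .cas 0 .skip (.push 0 false) pdrop

def T.hd : T → T
  | .nil => .nil
  | .cons a _ => a

def T.tl : T → T
  | .nil => .nil
  | .cons _ b => b

theorem Comp.hd : ∀ t : T, Comp pfst t t.hd (14 * t.size)
  | .nil => fun R => (RunM.cas1 (p0 := .skip) (p2 := .seq pswap pdrop) (RunM.push R false)).mono
      (by simp [T.size])
  | .cons a b => fun R => by
    have h := RunM.cas2 (p0 := .skip) (p1 := .push 0 false)
      ((run_pswap a b R).seq (run_pdrop b (a.ser ++ R)))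
    have e : (T.cons a b).ser ++ R = true :: (a.ser ++ (b.ser ++ R)) := by simp [T.ser]
    rw [e]
    exact h.mono (by simp [T.size]; omega)

theorem Comp.tl : ∀ t : T, Comp psnd t t.tl (14 * t.size)
  | .nil => fun R => (RunM.cas1 (p0 := .skip) (p2 := pdrop) (RunM.push R false)).mono
      (by simp [T.size])
  | .cons a b => fun R => by
    have h := RunM.cas2 (p0 := .skip) (p1 := .push 0 false) (run_pdrop a (b.ser ++ R))
    have e : (T.cons a b).ser ++ R = true :: (a.ser ++ (b.ser ++ R)) := by simp [T.ser]
    rw [e]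
    exact h.mono (by simp [T.size]; omega)

def ppair (p q : Prog) : Prog :=
  .seq pdup (.seq p (.seq pswap (.seq q (.seq pswap (.push 0 true)))))

theorem Comp.pair {p q : Prog} {x y z : T} {a b : ℕ} (h : Comp p x y a) (h' : Comp q x z b) :
    Comp (ppair p q) x (.cons y z) (42 * x.size + 17 * a + 9 * b + 17) := fun R => by
  have h1 := (run_pdup x R).seq ((h (x.ser ++ R)).seq ((run_pswap y x R).seq
    ((h' (y.ser ++ R)).seq ((run_pswap z y R).seq (RunM.push _ true)))))
  have e : (T.cons y z).ser ++ R = true :: (y.ser ++ (z.ser ++ R)) := by simp [T.ser]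
  rw [e]
  have := h.size_le
  have := h'.size_le
  exact h1.mono (by omega)

def pcond (c p q : Prog) : Prog :=
  .seq pdup (.seq c (.cas 0 .skip q (.seq pdrop (.seq pdrop p))))

theorem Comp.cond_nil {c p q : Prog} {x y : T} {a b : ℕ} (h : Comp c x .nil a)
    (h' : Comp q x y b) : Comp (pcond c p q) x y (22 * x.size + 7 * a + b + 9) := fun R => by
  have h1 := (run_pdup x R).seq ((h (x.ser ++ R)).seq
    (RunM.cas1 (p0 := .skip) (p2 := .seq pdrop (.seq pdrop p)) (h' R)))
  exact h1.mono (by omega)

theorem Comp.cond_cons {c p q : Prog} {x y s t : T} {a b : ℕ} (h : Comp c x (.cons s t) a)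
    (h' : Comp p x y b) : Comp (pcond c p q) x y (22 * x.size + 7 * a + b + 9) := fun R => by
  have h0 := h (x.ser ++ R)
  have e : (T.cons s t).ser ++ (x.ser ++ R) = true :: (s.ser ++ (t.ser ++ (x.ser ++ R))) := by
    simp [T.ser]
  rw [e] at h0
  have h1 := (run_pdup x R).seq (h0.seq
    (RunM.cas2 (p0 := .skip) (p1 := q) ((run_pdrop s _).seq ((run_pdrop t _).seq (h' R)))))
  have := h.size_le
  simp only [T.size] at this
  exact h1.mono (by omega)

/-- Evaluate the test `c` on a copy of the top tree; leave a flag on stack `3` if not `nil`. -/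
def ptest (c : Prog) : Prog :=
  .seq pdup (.seq c (.cas 0 .skip .skip (.seq pdrop (.seq pdrop (.push 3 false)))))

theorem run_ptest_nil {c : Prog} {x : T} {a : ℕ} (h : Comp c x .nil a) (R : List Bool) :
    Run (ptest c) (mk (x.ser ++ R) [] [] [] []) (mk (x.ser ++ R) [] [] [] [])
      (22 * x.size + 7 * a + 10) := by
  have h1 := (run_pdup x R).seq ((h (x.ser ++ R)).seq
    (RunM.cas1 (p0 := .skip) (p2 := .seq pdrop (.seq pdrop (.push 3 false))) (Run.skip _)))
  exact Run.mono h1 (by omega)

theorem run_ptest_cons {c : Prog} {x s t : T} {a : ℕ} (h : Comp c x (.cons s t) a)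
    (R : List Bool) :
    Run (ptest c) (mk (x.ser ++ R) [] [] [] []) (mk (x.ser ++ R) [] [] [false] [])
      (22 * x.size + 7 * a + 10) := by
  have h0 := h (x.ser ++ R)
  have e : (T.cons s t).ser ++ (x.ser ++ R) = true :: (s.ser ++ (t.ser ++ (x.ser ++ R))) := by
    simp [T.ser]
  rw [e] at h0
  have h2 : Run (.cas 0 .skip .skip (.seq pdrop (.seq pdrop (.push 3 false))))
      (mk (true :: (s.ser ++ (t.ser ++ (x.ser ++ R)))) [] [] [] [])
      (mk (x.ser ++ R) [] [] [false] []) _ :=
    Run.cas2 (r := s.ser ++ (t.ser ++ (x.ser ++ R))) rfl (by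
      simpa using Run.seq (run_pdrop s _) (Run.seq (run_pdrop t _) (Run.push3 _ _ _ _ _ false)))
  have h1 := Run.seq (run_pdup x R) (Run.seq h0 h2)
  have := h.size_le
  simp only [T.size] at this
  exact Run.mono h1 (by omega)

def pwhileLoop (c f : Prog) : Prog := .loop 3 (.seq f (ptest c)) .skip

/-- While the test `c` does not return `nil`, apply `f`. -/
def pwhile (c f : Prog) : Prog := .seq (ptest c) (pwhileLoop c f)

theorem while_aux {c f : Prog} (B : ℕ) (R : List Bool) :
    ∀ (n : ℕ) (x : ℕ → T), (∀ i < n, ∃ s t, Comp c (x i) (.cons s t) B) → Comp c (x n) .nil B →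
      (∀ i < n, Comp f (x i) (x (i + 1)) B) → (∀ i ≤ n, (x i).size ≤ B) →
      ∃ fl, Run (ptest c) (mk ((x 0).ser ++ R) [] [] [] []) (mk ((x 0).ser ++ R) [] [] fl [])
          (29 * B + 10) ∧
        Run (pwhileLoop c f) (mk ((x 0).ser ++ R) [] [] fl []) (mk ((x n).ser ++ R) [] [] [] [])
          (n * (30 * B + 11) + 1) := by
  intro n
  induction n with
  | zero =>
    intro x _ h0 _ hs
    have := hs 0 le_rfl
    exact ⟨[], (run_ptest_nil h0 R).mono (by omega), (Run.loop0 rfl).mono (by omega)⟩
  | succ n ih =>
    intro x hc h0 hf hs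
    obtain ⟨fl, h3, h4⟩ := ih (fun i => x (i + 1)) (fun i hi => hc (i + 1) (by omega)) h0
      (fun i hi => hf (i + 1) (by omega)) (fun i hi => hs (i + 1) (by omega))
    obtain ⟨s, t, hc0⟩ := hc 0 (by omega)
    have := hs 0 (by omega)
    refine ⟨[false], (run_ptest_cons hc0 R).mono (by omega), ?_⟩
    have h2 := hf 0 (by omega) R
    have h5 := Run.loop1 (k := 3) (p1 := .seq f (ptest c)) (p2 := .skip)
      (S := mk ((x 0).ser ++ R) [] [] [false] []) (r := []) rfl
      (by simpa using Run.seq h2 h3) h4
    exact h5.mono (by nlinarith)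

theorem Comp.while {c f : Prog} (x : ℕ → T) (B n : ℕ)
    (hc : ∀ i < n, ∃ s t, Comp c (x i) (.cons s t) B) (h0 : Comp c (x n) .nil B)
    (hf : ∀ i < n, Comp f (x i) (x (i + 1)) B) (hs : ∀ i ≤ n, (x i).size ≤ B) :
    Comp (pwhile c f) (x 0) (x n) ((n + 1) * (30 * B + 11)) := fun R => by
  obtain ⟨fl, h1, h2⟩ := while_aux B R n x hc h0 hf hs
  exact Run.mono (Run.seq h1 h2) (by nlinarith)

/-- Write the Boolean on the main stack to the output stack. -/
def pout : Prog :=
  .cas 0 .skip (.push 4 false) (.seq pdrop (.seq pdrop (.push 4 true)))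

theorem run_pout_nil : Run pout (mk T.nil.ser [] [] [] []) (mk [] [] [] [] [false]) 20 :=
  (Run.cas1 (r := []) rfl (by simpa using Run.push4 [] [] [] [] [] false)).mono (by omega)

theorem run_pout_cons :
    Run pout (mk (T.cons .nil .nil).ser [] [] [] []) (mk [] [] [] [] [true]) 20 := by
  have h := Run.seq (run_pdrop .nil (T.nil.ser ++ [])) (Run.seq (run_pdrop .nil [])
    (Run.push4 [] [] [] [] [] true))
  exact (Run.cas2 (r := T.nil.ser ++ (T.nil.ser ++ [])) rfl (by simpa using h)).mono
    (by simp [T.size])

end Pool.Agent.MP_eb915b_lc
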