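import Pool.Agent.MP_eb915b_lc.Tree

/-!
Typed layer: encodable types, time-bounded functions `TB`, polynomial-time functions `PT`,
and their closure properties.
-/

namespace Pool.Agent.MP_eb915b_lc

open Function

/-- Types with an injective encoding into binary trees. -/
class Enc (α : Type) where
  enc : α → T
  inj : Injective enc

open Enc

def encNatT : ℕ → T
  | 0 => .nil
  | n + 1 => .cons .nil (encNatT n)

def encListT {α : Type} (e : α → T) : List α → T
  | [] => .nil
  | a :: l => .cons (e a) (encListT e l)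

theorem encNatT_inj : Injective encNatT := by
  intro a
  induction a with
  | zero => intro b h; cases b <;> simp_all [encNatT]
  | succ a ih =>
    intro b h
    cases b with
    | zero => simp [encNatT] at h
    | succ b => simp only [encNatT, T.cons.injEq, true_and] at h; rw [ih h]

theorem encListT_inj {α : Type} {e : α → T} (he : Injective e) : Injective (encListT e) := by
  intro a
  induction a with
  | nil => intro b h; cases b <;> simp_all [encListT]
  | cons x a ih =>
    intro b h
    cases b with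
    | nil => simp [encListT] at h
    | cons y b => simp only [encListT, T.cons.injEq] at h; rw [he h.1, ih h.2]

instance : Enc T := ⟨id, injective_id⟩
instance : Enc Unit := ⟨fun _ => .nil, fun _ _ _ => rfl⟩
instance : Enc Bool := ⟨fun b => bif b then .cons .nil .nil else .nil, by
  intro a b h; cases a <;> cases b <;> simp_all⟩
instance : Enc ℕ := ⟨encNatT, encNatT_inj⟩
instance {α β : Type} [Enc α] [Enc β] : Enc (α × β) := ⟨fun p => .cons (enc p.1) (enc p.2), by
  intro a b h
  simp only [T.cons.injEq] at h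
  exact Prod.ext (Enc.inj h.1) (Enc.inj h.2)⟩
instance {α : Type} [Enc α] : Enc (List α) := ⟨encListT enc, encListT_inj Enc.inj⟩

variable {α β γ σ : Type}

/-- Size of the encoding. -/
def sz [Enc α] (a : α) : ℕ := (enc a).size

section encsimp
variable [Enc α] [Enc β]
theorem enc_T (t : T) : enc t = t := rfl
theorem enc_unit (u : Unit) : enc u = T.nil := rfl
theorem enc_false : enc false = T.nil := rfl
theorem enc_true : enc true = T.cons .nil .nil := rfl
theorem enc_zero : enc (0 : ℕ) = T.nil := rfl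
theorem enc_succ (n : ℕ) : enc (n + 1) = T.cons .nil (enc n) := rfl
theorem enc_pair (a : α) (b : β) : enc (a, b) = T.cons (enc a) (enc b) := rfl
theorem enc_nil : enc ([] : List α) = T.nil := rfl
theorem enc_cons (a : α) (l : List α) : enc (a :: l) = T.cons (enc a) (enc l) := rfl

theorem sz_pos (a : α) : 1 ≤ sz a := T.size_pos _
@[simp] theorem sz_T (t : T) : sz t = t.size := rfl
@[simp] theorem sz_unit (u : Unit) : sz u = 1 := rfl
theorem sz_bool (b : Bool) : sz b ≤ 3 := by cases b <;> decide
@[simp] theorem sz_nat (n : ℕ) : sz n = 2 * n + 1 := by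
  induction n with
  | zero => rfl
  | succ n ih =>
    have : sz (n + 1) = 1 + sz n + 1 := rfl
    omega
@[simp] theorem sz_pair (a : α) (b : β) : sz (a, b) = sz a + sz b + 1 := rfl
theorem sz_prod (p : α × β) : sz p = sz p.1 + sz p.2 + 1 := rfl
@[simp] theorem sz_nil : sz ([] : List α) = 1 := rfl
@[simp] theorem sz_cons (a : α) (l : List α) : sz (a :: l) = sz a + sz l + 1 := rfl
theorem sz_append (l l' : List α) : sz (l ++ l') + 1 = sz l + sz l' := by
  induction l with
  | nil => simp; omega
  | cons a l ih => simp; omega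
theorem sz_mem {a : α} {l : List α} (h : a ∈ l) : sz a ≤ sz l := by
  induction l with
  | nil => simp at h
  | cons b l ih =>
    rcases List.mem_cons.1 h with rfl | h
    · simp; omega
    · have := ih h; simp; omega
theorem length_le_sz (l : List α) : l.length ≤ sz l := by
  induction l with
  | nil => simp
  | cons b l ih => simp; omega
theorem sz_sublist {l l' : List α} (h : l.Sublist l') : sz l ≤ sz l' := by
  induction h with
  | slnil => exact le_rfl
  | cons a _ ih => simp; omega
  | cons_cons a _ ih => simp; omega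
theorem sz_le_of_forall {l : List α} {B : ℕ} (h : ∀ a ∈ l, sz a ≤ B) :
    sz l ≤ l.length * (B + 1) + 1 := by
  induction l with
  | nil => simp
  | cons b l ih =>
    have h1 := h b (by simp)
    have h2 := ih (fun a ha => h a (by simp [ha]))
    simp only [sz_cons, List.length_cons]
    nlinarith
end encsimp

/-- `t` is polynomially bounded in `μ`. -/
def Poly (μ t : α → ℕ) : Prop := ∃ c : ℕ, ∀ a, t a ≤ (μ a + 2) ^ c

namespace Poly
variable {μ s t : α → ℕ}

theorem mono (h : Poly μ t) (hle : ∀ a, s a ≤ t a) : Poly μ s :=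
  let ⟨c, hc⟩ := h; ⟨c, fun a => (hle a).trans (hc a)⟩

theorem self : Poly μ μ := ⟨1, fun a => by simp⟩

theorem const (C : ℕ) : Poly μ (fun _ => C) :=
  ⟨C, fun a => (Nat.lt_two_pow_self.le).trans (Nat.pow_le_pow_left (by omega) _)⟩

theorem mul (hs : Poly μ s) (ht : Poly μ t) : Poly μ (fun a => s a * t a) :=
  let ⟨c, hc⟩ := hs; let ⟨d, hd⟩ := ht
  ⟨c + d, fun a => by rw [pow_add]; exact Nat.mul_le_mul (hc a) (hd a)⟩

theorem add (hs : Poly μ s) (ht : Poly μ t) : Poly μ (fun a => s a + t a) := by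
  obtain ⟨c, hc⟩ := hs
  obtain ⟨d, hd⟩ := ht
  refine ⟨c + d + 1, fun a => ?_⟩
  have h1 : (μ a + 2) ^ c ≤ (μ a + 2) ^ (c + d) := Nat.pow_le_pow_right (by omega) (by omega)
  have h2 : (μ a + 2) ^ d ≤ (μ a + 2) ^ (c + d) := Nat.pow_le_pow_right (by omega) (by omega)
  have h3 := hc a
  have h4 := hd a
  show s a + t a ≤ _
  rw [pow_succ]
  nlinarith [Nat.zero_le ((μ a + 2) ^ (c + d) * μ a)]

theorem pow (hs : Poly μ s) (k : ℕ) : Poly μ (fun a => s a ^ k) :=
  let ⟨c, hc⟩ := hs
  ⟨c * k, fun a => by rw [pow_mul]; exact Nat.pow_le_pow_left (hc a) _⟩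

theorem comp {ν u : β → ℕ} (hu : Poly ν u) (g : α → β) (hg : Poly μ (fun a => ν (g a))) :
    Poly μ (fun a => u (g a)) :=
  let ⟨c, hc⟩ := hu
  ((hg.add (const 2)).pow c).mono fun a => hc (g a)

theorem trans {ν : α → ℕ} (h : Poly ν t) (h' : Poly μ ν) : Poly μ t := comp h id h'

/-- A monotone envelope: a polynomial bound valid on all points of bounded measure. -/
theorem bound {ν u : β → ℕ} (hu : Poly ν u) {B : α → ℕ} (hB : Poly μ B) :
    ∃ C : α → ℕ, Poly μ C ∧ ∀ a b, ν b ≤ B a → u b ≤ C a :=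
  let ⟨c, hc⟩ := hu
  ⟨fun a => (B a + 2) ^ c, (hB.add (const 2)).pow c,
    fun _ b hb => (hc b).trans (Nat.pow_le_pow_left (by omega) _)⟩

end Poly

variable [Enc α] [Enc β] [Enc γ] [Enc σ]

/-- `f` is computed by a program in time polynomial in the measure `μ`. -/
def TB (μ : α → ℕ) (f : α → β) : Prop :=
  Poly μ sz ∧ ∃ (p : Prog) (t : α → ℕ), Poly μ t ∧ ∀ a, Comp p (enc a) (enc (f a)) (t a)

/-- `f` is computed by a program in polynomial time. -/
@[fun_prop]
def PT (f : α → β) : Prop := TB sz f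

namespace TB
variable {μ : α → ℕ}

theorem size {f : α → β} (h : TB μ f) : Poly μ (fun a => sz (f a)) :=
  let ⟨h0, _, _, ht, hp⟩ := h
  (h0.add ht).mono fun a => (hp a).size_le

theorem comp {ν : β → ℕ} {g : β → γ} {f : α → β} (hg : TB ν g) (hf : TB μ f)
    (h : Poly μ (fun a => ν (f a))) : TB μ (fun a => g (f a)) :=
  let ⟨h0, p, _, ht, hp⟩ := hf
  let ⟨_, q, _, hu, hq⟩ := hg
  ⟨h0, .seq p q, _, ht.add (hu.comp f h), fun a => (hp a).seq (hq (f a))⟩

theorem comp_pt {g : β → γ} {f : α → β} (hg : PT g) (hf : TB μ f) : TB μ (fun a => g (f a)) :=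
  TB.comp hg hf hf.size

theorem of_pt {f : α → β} (hf : PT f) (h : Poly μ sz) : TB μ f :=
  let ⟨_, p, t, ht, hp⟩ := hf
  ⟨h, p, t, ht.trans h, hp⟩

theorem of_enc_eq {f : α → β} {g : α → γ} (hf : TB μ f) (h : ∀ a, enc (g a) = enc (f a)) :
    TB μ g :=
  let ⟨h0, p, t, ht, hp⟩ := hf
  ⟨h0, p, t, ht, fun a => by rw [h]; exact hp a⟩

theorem congr {f g : α → β} (hf : TB μ f) (h : ∀ a, g a = f a) : TB μ g :=
  hf.of_enc_eq fun a => by rw [h]

theorem pair {f : α → β} {g : α → γ} (hf : TB μ f) (hg : TB μ g) :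
    TB μ (fun a => (f a, g a)) :=
  let ⟨h0, p, _, ht, hp⟩ := hf
  let ⟨_, q, _, hu, hq⟩ := hg
  ⟨h0, ppair p q, _, ((((Poly.const 42).mul h0).add ((Poly.const 17).mul ht)).add
    ((Poly.const 9).mul hu)).add (Poly.const 17), fun a => (hp a).pair (hq a)⟩

/-- Conditional on the shape of a tree. -/
theorem condT {c : α → T} {f g h : α → β} (hc : TB μ c)
    (hf : ∃ (p : Prog) (t : α → ℕ), Poly μ t ∧
      ∀ a, c a ≠ .nil → Comp p (enc a) (enc (f a)) (t a))
    (hg : TB μ g) (h1 : ∀ a, c a ≠ .nil → h a = f a) (h2 : ∀ a, c a = .nil → h a = g a) :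
    TB μ h := by
  obtain ⟨h0, r, s, hs, hr⟩ := hc
  obtain ⟨p, t, ht, hp⟩ := hf
  obtain ⟨_, q, u, hu, hq⟩ := hg
  refine ⟨h0, pcond r p q, fun a => 22 * sz a + 7 * s a + (t a + u a) + 9,
    ((((Poly.const 22).mul h0).add ((Poly.const 7).mul hs)).add (ht.add hu)).add (Poly.const 9),
    fun a => ?_⟩
  have hr' := hr a
  rcases hca : c a with _ | ⟨x, y⟩
  · rw [hca] at hr'
    rw [h2 a hca]
    exact Comp.cond_nil hr' ((hq a).mono (by omega))
  · have hne : c a ≠ .nil := by rw [hca]; simp
    rw [hca] at hr'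
    rw [h1 a hne]
    exact Comp.cond_cons hr' ((hp a hne).mono (by omega))


/-- General while loop with bounded iteration count and bounded states. -/
theorem loop {c : σ → T} {f : σ → σ} (hc : PT c) (hf : PT f) {s : α → σ} (hs : TB μ s)
    {n B : α → ℕ} (hn : Poly μ n) (hB : Poly μ B)
    (h1 : ∀ a, ∀ i < n a, c (f^[i] (s a)) ≠ .nil) (h2 : ∀ a, c (f^[n a] (s a)) = .nil)
    (h3 : ∀ a, ∀ i ≤ n a, sz (f^[i] (s a)) ≤ B a) : TB μ (fun a => f^[n a] (s a)) := by
  obtain ⟨h0, r, t, ht, hr⟩ := hs
  obtain ⟨_, p, u, hu, hp⟩ := hc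
  obtain ⟨_, q, w, hw, hq⟩ := hf
  obtain ⟨C, hC, hC'⟩ := hu.bound hB
  obtain ⟨D, hD, hD'⟩ := hw.bound hB
  refine ⟨h0, .seq r (pwhile p q), fun a => t a + (n a + 1) * (30 * (B a + C a + D a) + 11),
    ht.add ((hn.add (Poly.const 1)).mul
      (((Poly.const 30).mul ((hB.add hC).add hD)).add (Poly.const 11))), fun a => ?_⟩
  refine (hr a).seq (Comp.while (fun i => enc (f^[i] (s a))) (B a + C a + D a) (n a) ?_ ?_ ?_ ?_)
  · intro i hi
    have h4 := hp (f^[i] (s a))
    have h5 := hC' a _ (h3 a i hi.le)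
    rcases hci : c (f^[i] (s a)) with _ | ⟨x, y⟩
    · exact absurd hci (h1 a i hi)
    · rw [hci] at h4
      exact ⟨x, y, h4.mono (by omega)⟩
  · have h4 := hp (f^[n a] (s a))
    have h5 := hC' a _ (h3 a _ le_rfl)
    rw [h2 a] at h4
    exact h4.mono (by omega)
  · intro i hi
    have h4 := hq (f^[i] (s a))
    have h5 := hD' a _ (h3 a i hi.le)
    simp only [iterate_succ_apply']
    exact h4.mono (by omega)
  · intro i hi
    have := h3 a i hi
    unfold sz at this
    omega

end TB

namespace PT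

theorem size {f : α → β} (h : PT f) : Poly sz (fun a => sz (f a)) := TB.size h

theorem encode : PT (enc : α → T) :=
  ⟨Poly.self, .skip, _, Poly.const 0, fun _ => Comp.skip _⟩

@[fun_prop] theorem id : PT (fun a : α => a) := TB.of_enc_eq encode fun _ => rfl

@[fun_prop] theorem comp {f : β → γ} {g : α → β} (hf : PT f) (hg : PT g) :
    PT (fun a => f (g a)) := TB.comp_pt hf hg

@[fun_prop] theorem pair {f : α → β} {g : α → γ} (hf : PT f) (hg : PT g) :
    PT (fun a => (f a, g a)) := TB.pair hf hg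

theorem constT : ∀ t : T, PT (fun _ : α => t)
  | .nil => ⟨Poly.self, pnil, _, ((Poly.const 6).mul Poly.self).add (Poly.const 3),
      fun a => Comp.nil (enc a)⟩
  | .cons s t => TB.of_enc_eq (pair (constT s) (constT t)) fun _ => rfl

@[fun_prop] theorem const (b : β) : PT (fun _ : α => b) :=
  TB.of_enc_eq (constT (enc b)) fun _ => rfl

theorem hd' : PT T.hd :=
  ⟨Poly.self, pfst, _, (Poly.const 14).mul Poly.self, fun a => Comp.hd a⟩

theorem tl' : PT T.tl :=
  ⟨Poly.self, psnd, _, (Poly.const 14).mul Poly.self, fun a => Comp.tl a⟩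

@[fun_prop] theorem enc' {f : α → β} (hf : PT f) : PT (fun a => enc (f a)) := comp encode hf
@[fun_prop] theorem hd {f : α → T} (hf : PT f) : PT (fun a => (f a).hd) := comp hd' hf
@[fun_prop] theorem tl {f : α → T} (hf : PT f) : PT (fun a => (f a).tl) := comp tl' hf

@[fun_prop] theorem fst {f : α → β × γ} (hf : PT f) : PT (fun a => (f a).1) :=
  TB.of_enc_eq (hd (enc' hf)) fun _ => rfl

@[fun_prop] theorem snd {f : α → β × γ} (hf : PT f) : PT (fun a => (f a).2) :=
  TB.of_enc_eq (tl (enc' hf)) fun _ => rfl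

@[fun_prop] theorem cons {f : α → β} {g : α → List β} (hf : PT f) (hg : PT g) :
    PT (fun a => f a :: g a) := TB.of_enc_eq (pair hf hg) fun _ => rfl

@[fun_prop] theorem tail {f : α → List β} (hf : PT f) : PT (fun a => (f a).tail) :=
  TB.of_enc_eq (tl (enc' hf)) fun a => by cases f a <;> rfl

@[fun_prop] theorem succ {f : α → ℕ} (hf : PT f) : PT (fun a => f a + 1) :=
  TB.of_enc_eq (pair (const T.nil) hf) fun _ => rfl

@[fun_prop] theorem pred {f : α → ℕ} (hf : PT f) : PT (fun a => f a - 1) :=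
  TB.of_enc_eq (tl (enc' hf)) fun a => by cases f a <;> rfl

theorem condT {c : α → T} {f g h : α → β} (hc : PT c) (hf : PT f) (hg : PT g)
    (h1 : ∀ a, c a ≠ .nil → h a = f a) (h2 : ∀ a, c a = .nil → h a = g a) : PT h :=
  let ⟨_, p, t, ht, hp⟩ := hf
  TB.condT hc ⟨p, t, ht, fun a _ => hp a⟩ hg h1 h2

@[fun_prop] theorem cond {c : α → Bool} {f g : α → β} (hc : PT c) (hf : PT f) (hg : PT g) :
    PT (fun a => cond (c a) (f a) (g a)) := by
  refine condT (enc' hc) hf hg (fun a h => ?_) (fun a h => ?_)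
  · cases hca : c a
    · rw [hca] at h; exact absurd rfl h
    · rfl
  · cases hca : c a
    · rfl
    · rw [hca] at h; cases h

@[fun_prop] theorem not {c : α → Bool} (hc : PT c) : PT (fun a => !(c a)) :=
  TB.congr (cond hc (const false) (const true)) fun a => by cases c a <;> rfl

@[fun_prop] theorem and {c d : α → Bool} (hc : PT c) (hd : PT d) : PT (fun a => c a && d a) :=
  TB.congr (cond hc hd (const false)) fun a => by cases c a <;> rfl

@[fun_prop] theorem or {c d : α → Bool} (hc : PT c) (hd : PT d) : PT (fun a => c a || d a) :=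
  TB.congr (cond hc (const true) hd) fun a => by cases c a <;> rfl

@[fun_prop] theorem isEmpty {l : α → List β} (hl : PT l) : PT (fun a => (l a).isEmpty) := by
  refine condT (enc' hl) (const false) (const true) (fun a h => ?_) (fun a h => ?_)
  · cases hca : l a
    · rw [hca] at h; exact absurd rfl h
    · rfl
  · cases hca : l a
    · rfl
    · rw [hca] at h; cases h

end PT

/-- Case analysis on a list. -/
def lcase {β γ : Type} (l : List β) (n : γ) (c : β → List β → γ) : γ :=
  match l with
  | [] => n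
  | x :: xs => c x xs

@[simp] theorem lcase_nil {β γ : Type} (n : γ) (c : β → List β → γ) : lcase [] n c = n := rfl
@[simp] theorem lcase_cons {β γ : Type} (x : β) (xs : List β) (n : γ) (c : β → List β → γ) :
    lcase (x :: xs) n c = c x xs := rfl

@[fun_prop] theorem PT.lcase {l : α → List β} {g : α → γ} {f : α → β → List β → γ}
    (hl : PT l) (hg : PT g) (hf : PT (fun p : α × β × List β => f p.1 p.2.1 p.2.2)) :
    PT (fun a => lcase (l a) (g a) (f a)) := by
  have h1 : PT (fun a => (a, (enc (l a)).hd, (enc (l a)).tl)) := by fun_prop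
  have h1s := h1.size
  obtain ⟨_, p, t, ht, hp⟩ := h1
  obtain ⟨_, q, u, hu, hq⟩ := hf
  obtain ⟨C, hC, hC'⟩ := hu.bound h1s
  refine TB.condT (f := fun a => Pool.Agent.MP_eb915b_lc.lcase (l a) (g a) (f a)) (PT.enc' hl)
    ⟨.seq p q, fun a => t a + C a, ht.add hC, fun a ha => ?_⟩ hg (fun _ _ => rfl) (fun a h => ?_)
  · have h2 := hp a
    have h3 := hC' a
    rcases hla : l a with _ | ⟨x, xs⟩
    · rw [hla] at ha; exact absurd rfl ha
    · simp only [hla] at h2 h3
      exact h2.seq ((hq (a, x, xs)).mono (h3 _ le_rfl))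
  · cases hca : l a
    · rfl
    · rw [hca] at h; cases h

/-- The step of the loop computing a left fold. -/
def foldStep {α β σ : Type} (g : α → σ → β → σ) (p : α × List β × σ) : α × List β × σ :=
  lcase p.2.1 p fun x xs => (p.1, xs, g p.1 p.2.2 x)

theorem foldStep_iter {α β σ : Type} (g : α → σ → β → σ) (a : α) :
    ∀ (i : ℕ) (l : List β) (s : σ),
      (foldStep g)^[i] (a, l, s) = (a, l.drop i, (l.take i).foldl (g a) s)
  | 0, l, s => by simp
  | i + 1, [], s => by
    rw [iterate_succ_apply]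
    have : foldStep g (a, [], s) = (a, [], s) := rfl
    rw [this, foldStep_iter g a i]; simp
  | i + 1, x :: xs, s => by
    rw [iterate_succ_apply]
    have : foldStep g (a, x :: xs, s) = (a, xs, g a s x) := rfl
    rw [this, foldStep_iter g a i]; simp

theorem TB.foldl {μ : α → ℕ} {g : α → σ → β → σ} {l : α → List β} {s : α → σ}
    (hg : PT (fun p : α × σ × β => g p.1 p.2.1 p.2.2)) (hl : TB μ l) (hs : TB μ s)
    {B : α → ℕ} (hB : Poly μ B) (h : ∀ a i, sz (((l a).take i).foldl (g a) (s a)) ≤ B a) :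
    TB μ (fun a => (l a).foldl (g a) (s a)) := by
  have hstep : PT (foldStep g) := by
    unfold foldStep
    refine PT.lcase (f := fun (p : α × List β × σ) x xs => (p.1, xs, g p.1 p.2.2 x))
      (by fun_prop) (by fun_prop) ?_
    have : PT (fun q : (α × List β × σ) × β × List β => g q.1.1 q.1.2.2 q.2.1) :=
      PT.comp (g := fun q : (α × List β × σ) × β × List β => (q.1.1, q.1.2.2, q.2.1)) hg
        (by fun_prop)
    fun_prop
  have hc : PT (fun p : α × List β × σ => enc p.2.1) := by fun_prop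
  have h0 : TB μ (fun a => (a, l a, s a)) := (TB.of_pt PT.id hl.1).pair (hl.pair hs)
  have h1 := TB.loop hc hstep h0 (n := fun a => (l a).length)
    (B := fun a => sz a + sz (l a) + B a + 2)
    (hl.size.mono fun a => length_le_sz _) (((hl.1.add hl.size).add hB).add (Poly.const 2))
    (fun a i hi => by
      simp only [foldStep_iter]
      rw [List.drop_eq_getElem_cons hi, enc_cons]
      exact fun h => T.noConfusion h)
    (fun a => by simp only [foldStep_iter]; simp [enc_nil])
    (fun a i _ => by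
      simp only [foldStep_iter, sz_pair]
      have h2 := sz_sublist (List.drop_sublist i (l a))
      have h3 := h a i
      omega)
  have h2 : PT (fun p : α × List β × σ => p.2.2) := by fun_prop
  exact (h1.comp_pt h2).congr fun a => by simp only [foldStep_iter]; simp

end Pool.Agent.MP_eb915b_lc
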